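import Pool.Agent.H616Z.Coarse.Random

set_option autoImplicit false

namespace Pool.Agent.H616Z.Coarse

open Finset

variable {V E : Type} [Fintype V] [Fintype E] [DecidableEq V] [DecidableEq E]
  {a b : E → V} {τ : E → ZMod 3} {g : ℕ}

/-- Boundary of a one-chain. -/
def bd {A : Type} [AddCommGroup A] (a b : E → V) (c : E → A) : V → A :=
  fun v => ∑ e, ((if b e = v then c e else 0) - (if a e = v then c e else 0))

omit [Fintype V] [DecidableEq E] in
lemma bd_add {A : Type} [AddCommGroup A] (c c' : E → A) :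
    bd a b (c + c') = bd a b c + bd a b c' := by
  funext v
  simp only [bd, Pi.add_apply, ← sum_add_distrib]
  refine sum_congr rfl fun e _ => ?_
  split_ifs <;> abel

omit [Fintype V] [DecidableEq E] in
lemma bd_neg {A : Type} [AddCommGroup A] (c : E → A) : bd a b (-c) = -bd a b c := by
  funext v
  simp only [bd, Pi.neg_apply, ← sum_neg_distrib]
  refine sum_congr rfl fun e _ => ?_
  split_ifs <;> abel

omit [Fintype V] [DecidableEq E] in
lemma bd_sub {A : Type} [AddCommGroup A] (c c' : E → A) :
    bd a b (c - c') = bd a b c - bd a b c' := by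
  rw [sub_eq_add_neg, bd_add, bd_neg, sub_eq_add_neg]

omit [Fintype V] [DecidableEq E] in
lemma bd_zero {A : Type} [AddCommGroup A] : bd a b (0 : E → A) = 0 := by
  funext v
  simp [bd]

omit [Fintype V] in
lemma bd_single {A : Type} [AddCommGroup A] (e : E) (x : A) :
    bd a b (Pi.single e x) = Pi.single (b e) x - Pi.single (a e) x := by
  funext v
  simp only [bd, Pi.sub_apply]
  rw [sum_eq_single e (fun y _ hy => by simp [hy]) (by simp)]
  simp [Pi.single_apply, eq_comm]

omit [Fintype V] [DecidableEq E] in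
lemma bd_cast (c : E → ℤ) (v : V) :
    bd a b (fun e => (c e : ZMod 2)) v = ((bd a b c v : ℤ) : ZMod 2) := by
  simp only [bd]
  push_cast
  rfl

omit [DecidableEq E] in
lemma acyclic (hG : Good a b τ g) {A : Type} [AddCommGroup A] (c : E → A) (F : Finset E)
    (hF : ∀ e, e ∈ F ↔ c e ≠ 0) (hg : #F ≤ g) (h : bd a b c = 0) : c = 0 := by
  by_contra hc
  have hne : F.Nonempty := by
    by_contra h1
    apply hc
    funext e
    by_contra h2
    exact h1 ⟨e, (hF e).2 h2⟩
  set U := F.image a ∪ F.image b with hU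
  have h1 := hG.girth F U hne hg fun e he =>
    ⟨mem_union_left _ (mem_image_of_mem _ he), mem_union_right _ (mem_image_of_mem _ he)⟩
  have h2 : #F = ∑ v ∈ U, #{e ∈ F | a e = v} :=
    card_eq_sum_card_fiberwise fun e he => mem_union_left _ (mem_image_of_mem _ he)
  have h3 : #F = ∑ v ∈ U, #{e ∈ F | b e = v} :=
    card_eq_sum_card_fiberwise fun e he => mem_union_right _ (mem_image_of_mem _ he)
  obtain ⟨v, hv, hv2⟩ : ∃ v ∈ U, #{e ∈ F | a e = v} + #{e ∈ F | b e = v} < 2 := by
    apply exists_lt_of_sum_lt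
    rw [sum_add_distrib, ← h2, ← h3, sum_const, smul_eq_mul]
    omega
  have h4 : bd a b c v = ∑ e ∈ F with b e = v, c e - ∑ e ∈ F with a e = v, c e := by
    simp only [bd, sum_sub_distrib, sum_filter]
    congr 1 <;>
    · symm
      refine sum_subset (subset_univ _) fun e _ he => ?_
      have : c e = 0 := by
        by_contra h5
        exact he ((hF e).2 h5)
      simp [this]
  rw [h, Pi.zero_apply] at h4
  have h5 : 0 < #{e ∈ F | a e = v} + #{e ∈ F | b e = v} := by
    rcases mem_union.1 hv with h6 | h6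
    · obtain ⟨e, he, rfl⟩ := mem_image.1 h6
      have : 0 < #{e' ∈ F | a e' = a e} := card_pos.2 ⟨e, mem_filter.2 ⟨he, rfl⟩⟩
      omega
    · obtain ⟨e, he, rfl⟩ := mem_image.1 h6
      have : 0 < #{e' ∈ F | b e' = b e} := card_pos.2 ⟨e, mem_filter.2 ⟨he, rfl⟩⟩
      omega
  rcases (by omega : (#{e ∈ F | a e = v} = 1 ∧ #{e ∈ F | b e = v} = 0) ∨
    (#{e ∈ F | a e = v} = 0 ∧ #{e ∈ F | b e = v} = 1)) with ⟨h6, h7⟩ | ⟨h6, h7⟩
  · obtain ⟨e, he⟩ := card_eq_one.1 h6
    have h8 : e ∈ F := (mem_filter.1 (he ▸ mem_singleton_self e : e ∈ F.filter _)).1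
    rw [he, card_eq_zero.1 h7, sum_empty, sum_singleton, zero_sub, zero_eq_neg] at h4
    exact (hF e).1 h8 h4
  · obtain ⟨e, he⟩ := card_eq_one.1 h7
    have h8 : e ∈ F := (mem_filter.1 (he ▸ mem_singleton_self e : e ∈ F.filter _)).1
    rw [he, card_eq_zero.1 h6, sum_empty, sum_singleton, sub_zero] at h4
    exact (hF e).1 h8 h4.symm

/-- Short mod two chains starting at `u`. -/
def short (a b : E → V) (k : ℕ) (u : V) : Finset (E → ZMod 2) :=
  {η | #{e | η e ≠ 0} ≤ k ∧ ∃ u', bd a b η = Pi.single u' 1 - Pi.single u 1}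

lemma card_short (hG : Good a b τ g) : ∀ k, k ≤ g → ∀ u, #(short a b k u) ≤ 200001 ^ k := by
  intro k
  induction k with
  | zero =>
    intro _ u
    rw [pow_zero, card_le_one]
    have key : ∀ η ∈ short a b 0 u, η = 0 := by
      intro η hη
      have h1 := (mem_filter.1 hη).2.1
      funext e
      by_contra h2
      have : 0 < #{e | η e ≠ 0} := card_pos.2 ⟨e, mem_filter.2 ⟨mem_univ _, h2⟩⟩
      omega
    intro η hη η' hη'
    rw [key η hη, key η' hη']
  | succ k ih =>
    intro hk u
    have h1 : short a b (k + 1) u ⊆ {0} ∪ (univ.filter fun e => a e = u ∨ b e = u).biUnion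
        fun e => (short a b k (if a e = u then b e else a e)).image (· + Pi.single e 1) := by
      intro η hη
      obtain ⟨hη1, u', hη2⟩ := (mem_filter.1 hη).2
      by_cases h0 : η = 0
      · exact mem_union_left _ (mem_singleton.2 h0)
      refine mem_union_right _ ?_
      have hu : u' ≠ u := by
        rintro rfl
        rw [sub_self] at hη2
        exact h0 (acyclic hG η _ (fun e => by simp) (hη1.trans hk) hη2)
      have h2 : bd a b η u ≠ 0 := by
        rw [hη2]
        simp [hu.symm]
      obtain ⟨e, -, he⟩ := exists_ne_zero_of_sum_ne_zero h2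
      have he1 : η e ≠ 0 := by
        intro h
        simp [h] at he
      have he2 : a e = u ∨ b e = u := by
        by_contra h
        push Not at h
        simp [h.1, h.2] at he
      have he3 : η e = 1 := by
        have : ∀ x : ZMod 2, x ≠ 0 → x = 1 := by decide
        exact this _ he1
      refine mem_biUnion.2 ⟨e, mem_filter.2 ⟨mem_univ _, he2⟩,
        mem_image.2 ⟨η - Pi.single e 1, mem_filter.2 ⟨mem_univ _, ?_, u', ?_⟩, by simp⟩⟩
      · have h3 : ({x | (η - Pi.single e 1 : E → ZMod 2) x ≠ 0} : Finset E) ⊆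
            ({x | η x ≠ 0} : Finset E).erase e := by
          intro x hx
          have hx' := (mem_filter.1 hx).2
          have hxe : x ≠ e := by
            rintro rfl
            simp [he3] at hx'
          refine mem_erase.2 ⟨hxe, mem_filter.2 ⟨mem_univ _, ?_⟩⟩
          simpa [hxe] using hx'
        have h4 := card_le_card h3
        have h5 : e ∈ ({x | η x ≠ 0} : Finset E) := mem_filter.2 ⟨mem_univ _, he1⟩
        rw [card_erase_of_mem h5] at h4
        omega
      · rw [bd_sub, hη2, bd_single]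
        by_cases h5 : a e = u
        · rw [if_pos h5, h5]
          abel
        · have h6 : b e = u := he2.resolve_left h5
          rw [if_neg h5, h6]
          funext v
          have : ∀ x y z : ZMod 2, x - y - (y - z) = x - z := by decide
          exact this _ _ _
    refine (card_le_card h1).trans ((card_union_le _ _).trans ?_)
    have h2 := card_biUnion_le_card_mul (univ.filter fun e => a e = u ∨ b e = u)
      (fun e => (short a b k (if a e = u then b e else a e)).image (· + Pi.single e 1))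
      (200001 ^ k) fun e _ => card_image_le.trans (ih (by omega) _)
    have h3 := hG.deg u (univ.filter fun e => a e = u ∨ b e = u) fun e he => (mem_filter.1 he).2
    have h4 : 0 < 200001 ^ k := by positivity
    rw [card_singleton, pow_succ]
    nlinarith

/-- `x'` is reached from `x` by an integral chain of size at most `k`. -/
def Reach (a b : E → V) (τ : E → ZMod 3) (k : ℕ) (x x' : V × (E → ZMod 2) × ZMod 3) : Prop :=
  ∃ c : E → ℤ, ∑ e, (c e).natAbs ≤ k ∧ bd a b c = Pi.single x'.1 1 - Pi.single x.1 1 ∧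
    (fun e => (c e : ZMod 2)) = x'.2.1 - x.2.1 ∧ ∑ e, (c e : ZMod 3) * τ e = x'.2.2 - x.2.2

omit [Fintype V] [DecidableEq E] in
lemma Reach.refl (x : V × (E → ZMod 2) × ZMod 3) : Reach a b τ 0 x x :=
  ⟨0, by simp, by simp [bd_zero], by simp; rfl, by simp⟩

omit [Fintype V] [DecidableEq E] in
lemma Reach.symm {k : ℕ} {x x' : V × (E → ZMod 2) × ZMod 3} (h : Reach a b τ k x x') :
    Reach a b τ k x' x := by
  obtain ⟨c, h1, h2, h3, h4⟩ := h
  refine ⟨-c, by simpa using h1, by rw [bd_neg, h2, neg_sub], ?_, ?_⟩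
  · rw [← neg_sub, ← h3]
    funext e
    simp
  · rw [← neg_sub, ← h4]
    simp

omit [Fintype V] [DecidableEq E] in
lemma Reach.trans {k l : ℕ} {x x' x'' : V × (E → ZMod 2) × ZMod 3} (h : Reach a b τ k x x')
    (h' : Reach a b τ l x' x'') : Reach a b τ (k + l) x x'' := by
  obtain ⟨c, h1, h2, h3, h4⟩ := h
  obtain ⟨c', h1', h2', h3', h4'⟩ := h'
  refine ⟨c + c', ?_, by rw [bd_add, h2, h2']; abel, ?_, ?_⟩
  · refine le_trans (sum_le_sum fun e _ => Int.natAbs_add_le (c e) (c' e)) ?_
    rw [sum_add_distrib]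
    omega
  · rw [show x''.2.1 - x.2.1 = (x'.2.1 - x.2.1) + (x''.2.1 - x'.2.1) by abel, ← h3, ← h3']
    funext e
    simp
  · rw [show x''.2.2 - x.2.2 = (x'.2.2 - x.2.2) + (x''.2.2 - x'.2.2) by abel, ← h4, ← h4',
      ← sum_add_distrib]
    refine sum_congr rfl fun e _ => ?_
    simp [add_mul]

omit [Fintype V] [DecidableEq E] in
lemma Reach.eq_of_zero {x x' : V × (E → ZMod 2) × ZMod 3} (h : Reach a b τ 0 x x') : x = x' := by
  obtain ⟨c, h1, h2, h3, h4⟩ := h
  have hc : c = 0 := by
    funext e
    have := single_le_sum (f := fun e => (c e).natAbs) (fun _ _ => Nat.zero_le _) (mem_univ e)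
    simp only [Pi.zero_apply]
    omega
  subst hc
  rw [bd_zero] at h2
  refine Prod.ext ?_ (Prod.ext ?_ ?_)
  · by_contra h
    have := congrFun h2 x.1
    simp [h] at this
  · refine (sub_eq_zero.1 ?_).symm
    rw [← h3]
    funext e
    simp
  · refine (sub_eq_zero.1 ?_).symm
    rw [← h4]
    simp

omit [Fintype V] in
lemma Reach.edge (e : E) (δ : E → ZMod 2) (t : ZMod 3) :
    Reach a b τ 1 (a e, δ, t) (b e, δ + Pi.single e 1, t + τ e) := by
  refine ⟨Pi.single e 1, ?_, bd_single e 1, ?_, ?_⟩
  · rw [sum_eq_single e (fun y _ hy => by simp [hy]) (by simp)]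
    simp
  · funext x
    by_cases h : x = e
    · subst h; simp
    · simp [h]
  · rw [sum_eq_single e (fun y _ hy => by simp [hy]) (by simp)]
    simp

omit [DecidableEq E] in
lemma card_supp_le (c : E → ℤ) : #{e | c e ≠ 0} ≤ ∑ e, (c e).natAbs := by
  rw [card_eq_sum_ones]
  refine le_trans (sum_le_sum fun e he => ?_) (sum_le_sum_of_subset (subset_univ _))
  have := (mem_filter.1 he).2
  omega

omit [DecidableEq E] in
lemma not_reach (hG : Good a b τ g) {k : ℕ} (hk : k ≤ g) (u : V) (δ : E → ZMod 2) (t : ZMod 3) :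
    ¬ Reach a b τ k (u, δ, t) (u, δ, t + 1) := by
  rintro ⟨c, h1, h2, -, h4⟩
  rw [sub_self] at h2
  have hc := acyclic hG c _ (fun e => by simp) ((card_supp_le c).trans (h1.trans hk)) h2
  subst hc
  simp at h4

/-- The component class of a point of the mod two homology cover. -/
def cls (a b : E → V) (y : V × (E → ZMod 2)) : V → ZMod 2 := bd a b y.2 - Pi.single y.1 1

omit [Fintype V] [DecidableEq E] in
lemma Reach.cls_eq {k : ℕ} {x x' : V × (E → ZMod 2) × ZMod 3} (h : Reach a b τ k x x') :
    cls a b (x.1, x.2.1) = cls a b (x'.1, x'.2.1) ∧ #{e | x.2.1 e ≠ x'.2.1 e} ≤ k := by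
  obtain ⟨c, h1, h2, h3, -⟩ := h
  constructor
  · have h5 : bd a b (x'.2.1 - x.2.1) = Pi.single x'.1 1 - Pi.single x.1 1 := by
      rw [← h3]
      funext v
      rw [bd_cast, h2]
      simp [Pi.single_apply]
    rw [bd_sub] at h5
    unfold cls
    simp only
    linear_combination -h5
  · refine le_trans (card_le_card fun e he => ?_) ((card_supp_le c).trans h1)
    refine mem_filter.2 ⟨mem_univ _, fun h0 => (mem_filter.1 he).2 ?_⟩
    have := congrFun h3 e
    simp only [h0, Int.cast_zero, Pi.sub_apply] at this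
    exact (sub_eq_zero.1 this.symm).symm

omit [Fintype V] [DecidableEq E] in
lemma eq_of_cls {y y' : V × (E → ZMod 2)} (h1 : cls a b y = cls a b y') (h2 : y.2 = y'.2) :
    y = y' := by
  refine Prod.ext ?_ h2
  unfold cls at h1
  rw [h2, sub_right_inj] at h1
  by_contra h
  have := congrFun h1 y.1
  simp [h] at this

end Pool.Agent.H616Z.Coarse
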