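import Pool.Agent.H616Z.Coarse.Scalar

set_option autoImplicit false

namespace Pool.Agent.H616Z.Coarse

open Finset

variable {V E : Type} [Fintype V] [Fintype E] [DecidableEq V] [DecidableEq E]
  {a b : E → V} {τ : E → ZMod 3} {g : ℕ}

/-- The sign character of `ZMod 2`. -/
def sg (x : ZMod 2) : ℝ := if x = 0 then 1 else -1

lemma sg_add (x y : ZMod 2) : sg (x + y) = sg x * sg y := by
  have h : ∀ x y : ZMod 2, (x + y = 0 ↔ (x = 0 ↔ y = 0)) := by decide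
  unfold sg
  by_cases hx : x = 0 <;> by_cases hy : y = 0 <;> simp [h, hx, hy]

lemma abs_sg (x : ZMod 2) : |sg x| = 1 := by
  unfold sg
  split_ifs <;> simp

/-- Walsh characters. -/
def chi (s δ : E → ZMod 2) : ℝ := sg (∑ e, s e * δ e)

omit [DecidableEq E] in
lemma chi_add (s δ η : E → ZMod 2) : chi s (δ + η) = chi s δ * chi s η := by
  unfold chi
  rw [← sg_add, ← sum_add_distrib]
  simp only [Pi.add_apply, mul_add]

omit [DecidableEq E] in
lemma chi_comm (s δ : E → ZMod 2) : chi s δ = chi δ s := by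
  unfold chi
  simp only [mul_comm]

lemma sum_chi (η : E → ZMod 2) :
    ∑ s, chi s η = if η = 0 then (Fintype.card (E → ZMod 2) : ℝ) else 0 := by
  split_ifs with h
  · subst h
    simp [chi, sg]
  · obtain ⟨e, he⟩ : ∃ e, η e ≠ 0 := by
      by_contra hcon
      push Not at hcon
      exact h (funext hcon)
    have h1 : chi η (Pi.single e 1) = -1 := by
      unfold chi
      rw [sum_eq_single e (fun x _ hx => by simp [hx]) (by simp)]
      simp [sg, he]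
    have h2 : ∑ s, chi s η = ∑ s, chi (s + Pi.single e 1) η :=
      (Equiv.sum_comp (Equiv.addRight (Pi.single e 1)) fun s => chi s η).symm
    have h3 : ∀ s, chi (s + Pi.single e 1) η = -chi s η := by
      intro s
      rw [chi_comm, chi_add, h1, chi_comm]
      ring
    simp only [h3, sum_neg_distrib] at h2
    linarith

lemma parseval (h : (E → ZMod 2) → ℝ) :
    ∑ s, (∑ δ, chi s δ * h δ) ^ 2 = Fintype.card (E → ZMod 2) * ∑ δ, h δ ^ 2 := by
  have h1 : ∀ s, (∑ δ, chi s δ * h δ) ^ 2 = ∑ δ, ∑ η, h δ * h η * chi s (δ + η) := by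
    intro s
    rw [sq, sum_mul_sum]
    refine sum_congr rfl fun δ _ => sum_congr rfl fun η _ => ?_
    rw [chi_add]
    ring
  simp only [h1]
  rw [sum_comm, mul_sum]
  refine sum_congr rfl fun δ _ => ?_
  rw [sum_comm]
  simp only [← mul_sum, sum_chi]
  have h2 : ∀ η : E → ZMod 2, δ + η = 0 ↔ η = δ := by
    intro η
    rw [add_eq_zero_iff_neg_eq]
    have : -δ = δ := by
      funext e
      exact ZMod.neg_eq_self_mod_two _
    rw [this, eq_comm]
  simp only [h2, mul_ite, mul_zero, sum_ite_eq', mem_univ, if_true]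
  ring

lemma vector (hG : Good a b τ g) {κ : Type} [Fintype κ]
    (ω : V → (E → ZMod 2) → ZMod 3 → κ → ℝ) (h1 : ∀ u δ i, ∑ t, ω u δ t i = 0)
    (h2 : ∀ u δ, ∑ t, ∑ i, ω u δ t i ^ 2 = 1)
    (h3 : ∀ e δ, ∑ t, ∑ i, (ω (a e) δ t i - ω (b e) (δ + Pi.single e 1) (t + τ e) i) ^ 2 ≤
      1 / 10 ^ 9) : False := by
  obtain ⟨Z, hZ1, hZ⟩ := exists_Z hG
  set M : ℝ := ((Fintype.card (E → ZMod 2) : ℕ) : ℝ) with hM
  have hM0 : 0 < M := by
    rw [hM]
    exact_mod_cast Fintype.card_pos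
  set P : (E → ZMod 2) → κ → V × ZMod 3 → ℝ :=
    fun s i x => ∑ δ, chi s δ * ω x.1 δ x.2 i with hP
  have hsum : ∀ s i u, ∑ t, P s i (u, t) = 0 := by
    intro s i u
    simp only [hP]
    rw [sum_comm]
    simp only [← mul_sum, h1, mul_zero, sum_const_zero]
  have hnorm : ∀ u, ∑ s, ∑ i, ∑ t, P s i (u, t) ^ 2 = M ^ 2 := by
    intro u
    calc ∑ s, ∑ i, ∑ t, P s i (u, t) ^ 2 = ∑ i, ∑ t, ∑ s, P s i (u, t) ^ 2 := by
          rw [sum_comm]
          exact sum_congr rfl fun i _ => sum_comm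
      _ = ∑ i, ∑ t, M * ∑ δ, ω u δ t i ^ 2 := by simp only [hP, parseval, hM]
      _ = M * ∑ δ, ∑ t, ∑ i, ω u δ t i ^ 2 := by
          simp only [← mul_sum]
          congr 1
          rw [sum_comm]
          calc ∑ t, ∑ i, ∑ δ, ω u δ t i ^ 2 = ∑ t, ∑ δ, ∑ i, ω u δ t i ^ 2 :=
                sum_congr rfl fun t _ => sum_comm
            _ = _ := sum_comm
      _ = M ^ 2 := by
          simp only [h2, sum_const, card_univ, nsmul_eq_mul, mul_one, ← hM]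
          ring
  have hedge : ∀ e, ∑ s, ∑ i, ∑ t,
      (P s i (a e, t) - chi s (Pi.single e 1) * P s i (b e, t + τ e)) ^ 2 ≤ M ^ 2 / 10 ^ 9 := by
    intro e
    have e1 : ∀ s i t, P s i (a e, t) - chi s (Pi.single e 1) * P s i (b e, t + τ e) =
        ∑ δ, chi s δ * (ω (a e) δ t i - ω (b e) (δ + Pi.single e 1) (t + τ e) i) := by
      intro s i t
      simp only [hP, mul_sub, sum_sub_distrib]
      congr 1
      rw [← Equiv.sum_comp (Equiv.addRight (Pi.single e 1 : E → ZMod 2)), mul_sum]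
      refine sum_congr rfl fun δ _ => ?_
      simp only [Equiv.coe_addRight]
      rw [chi_add]
      have e2 : chi s (Pi.single e 1) * chi s (Pi.single e 1) = 1 := by
        rw [← abs_mul_abs_self, chi, abs_sg, mul_one]
      linear_combination (chi s δ * ω (b e) (δ + Pi.single e 1) (t + τ e) i) * e2
    simp only [e1]
    calc ∑ s, ∑ i, ∑ t, (∑ δ, chi s δ *
            (ω (a e) δ t i - ω (b e) (δ + Pi.single e 1) (t + τ e) i)) ^ 2
        = ∑ i, ∑ t, ∑ s, (∑ δ, chi s δ *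
            (ω (a e) δ t i - ω (b e) (δ + Pi.single e 1) (t + τ e) i)) ^ 2 := by
          rw [sum_comm]
          exact sum_congr rfl fun i _ => sum_comm
      _ = ∑ i, ∑ t, M * ∑ δ, (ω (a e) δ t i - ω (b e) (δ + Pi.single e 1) (t + τ e) i) ^ 2 := by
          simp only [parseval, hM]
      _ = M * ∑ δ, ∑ t, ∑ i, (ω (a e) δ t i - ω (b e) (δ + Pi.single e 1) (t + τ e) i) ^ 2 := by
          simp only [← mul_sum]
          congr 1
          rw [sum_comm]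
          calc ∑ t, ∑ i, ∑ δ, (ω (a e) δ t i - ω (b e) (δ + Pi.single e 1) (t + τ e) i) ^ 2
              = ∑ t, ∑ δ, ∑ i, (ω (a e) δ t i - ω (b e) (δ + Pi.single e 1) (t + τ e) i) ^ 2 :=
                sum_congr rfl fun t _ => sum_comm
            _ = _ := sum_comm
      _ ≤ M * ∑ _δ : E → ZMod 2, (1 / 10 ^ 9 : ℝ) :=
          mul_le_mul_of_nonneg_left (sum_le_sum fun δ _ => h3 e δ) hM0.le
      _ = M ^ 2 / 10 ^ 9 := by
          simp only [sum_const, card_univ, nsmul_eq_mul, ← hM]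
          ring
  have hmain := sum_le_sum (s := univ) fun s _ => sum_le_sum (s := univ) fun i _ =>
    scalar hZ (P s i) (hsum s i) (fun e => chi s (Pi.single e 1)) (fun e => abs_sg _)
  have hL : ∑ s, ∑ i, ∑ u ∈ (Z.image Prod.fst)ᶜ, ∑ t, P s i (u, t) ^ 2 =
      #((Z.image Prod.fst)ᶜ) * M ^ 2 := by
    calc ∑ s, ∑ i, ∑ u ∈ (Z.image Prod.fst)ᶜ, ∑ t, P s i (u, t) ^ 2
        = ∑ s, ∑ u ∈ (Z.image Prod.fst)ᶜ, ∑ i, ∑ t, P s i (u, t) ^ 2 :=
          sum_congr rfl fun s _ => sum_comm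
      _ = ∑ u ∈ (Z.image Prod.fst)ᶜ, ∑ s, ∑ i, ∑ t, P s i (u, t) ^ 2 := sum_comm
      _ = _ := by simp only [hnorm, sum_const, nsmul_eq_mul]
  have hR : ∑ s, ∑ i, 9 * ∑ e, (9 * (∑ t, P s i (a e, t) ^ 2 + ∑ t, P s i (b e, t) ^ 2) / 38880 +
        19440 * (9 * ∑ t, (P s i (a e, t) - chi s (Pi.single e 1) * P s i (b e, t + τ e)) ^ 2)) ≤
      9 * (Fintype.card E * (18 * M ^ 2 / 38880 + 19440 * (9 * (M ^ 2 / 10 ^ 9)))) := by
    simp only [← mul_sum]
    refine mul_le_mul_of_nonneg_left ?_ (by norm_num)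
    calc ∑ s, ∑ i, ∑ e, (9 * (∑ t, P s i (a e, t) ^ 2 + ∑ t, P s i (b e, t) ^ 2) / 38880 +
          19440 * (9 * ∑ t, (P s i (a e, t) - chi s (Pi.single e 1) * P s i (b e, t + τ e)) ^ 2))
        = ∑ s, ∑ e, ∑ i, (9 * (∑ t, P s i (a e, t) ^ 2 + ∑ t, P s i (b e, t) ^ 2) / 38880 +
          19440 * (9 * ∑ t, (P s i (a e, t) - chi s (Pi.single e 1) * P s i (b e, t + τ e)) ^ 2)) :=
          sum_congr rfl fun s _ => sum_comm
      _ = ∑ e, ∑ s, ∑ i, (9 * (∑ t, P s i (a e, t) ^ 2 + ∑ t, P s i (b e, t) ^ 2) / 38880 +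
          19440 * (9 * ∑ t, (P s i (a e, t) - chi s (Pi.single e 1) * P s i (b e, t + τ e)) ^ 2)) :=
          sum_comm
      _ ≤ ∑ _e : E, (18 * M ^ 2 / 38880 + 19440 * (9 * (M ^ 2 / 10 ^ 9))) := by
          refine sum_le_sum fun e _ => ?_
          simp only [sum_add_distrib, ← mul_sum, ← sum_div]
          rw [hnorm, hnorm]
          linarith [hedge e]
      _ = _ := by rw [sum_const, card_univ, nsmul_eq_mul]
  have hfin := (hL.symm.le.trans hmain).trans hR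
  have hE : (Fintype.card E : ℝ) ≤ 60 * Fintype.card V := by exact_mod_cast hG.edges
  have hN : (0 : ℝ) < Fintype.card V := by exact_mod_cast hG.pos
  have hC : (Fintype.card V : ℝ) ≤ 2 * #((Z.image Prod.fst)ᶜ) := by
    have c1 : #(Z.image Prod.fst) ≤ #Z := card_image_le
    have c2 := card_compl (Z.image Prod.fst)
    exact_mod_cast (by omega : Fintype.card V ≤ 2 * #((Z.image Prod.fst)ᶜ))
  have hM2 : 0 < M ^ 2 := by positivity
  have c3 : 9 * (Fintype.card E * (18 * M ^ 2 / 38880 + 19440 * (9 * (M ^ 2 / 10 ^ 9)))) ≤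
      9 * (60 * Fintype.card V * (18 * M ^ 2 / 38880 + 19440 * (9 * (M ^ 2 / 10 ^ 9)))) := by
    gcongr
  nlinarith [mul_pos hN hM2]

lemma normalize_sub {F : Type*} [NormedAddCommGroup F] [NormedSpace ℝ F] {x y : F} (hx : x ≠ 0)
    (hy : y ≠ 0) : ‖‖x‖⁻¹ • x - ‖y‖⁻¹ • y‖ ≤ 2 * ‖x - y‖ / ‖x‖ := by
  have hx0 : 0 < ‖x‖ := norm_pos_iff.2 hx
  have hy0 : 0 < ‖y‖ := norm_pos_iff.2 hy
  have e1 : ‖x‖⁻¹ • x - ‖y‖⁻¹ • y = ‖x‖⁻¹ • (x - y) + (‖x‖⁻¹ - ‖y‖⁻¹) • y := by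
    rw [smul_sub, sub_smul]; abel
  rw [e1]
  refine (norm_add_le _ _).trans ?_
  rw [norm_smul, norm_smul, norm_inv, norm_norm, Real.norm_eq_abs]
  have e2 : |‖x‖⁻¹ - ‖y‖⁻¹| * ‖y‖ = |‖y‖ - ‖x‖| / ‖x‖ := by
    rw [show ‖x‖⁻¹ - ‖y‖⁻¹ = (‖y‖ - ‖x‖) / (‖x‖ * ‖y‖) by field_simp, abs_div,
      abs_of_pos (mul_pos hx0 hy0)]
    field_simp
  rw [e2]
  have e3 : |‖y‖ - ‖x‖| ≤ ‖x - y‖ := by
    rw [abs_sub_comm]
    exact abs_norm_sub_norm_le x y
  rw [inv_mul_eq_div, ← add_div]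
  gcongr
  linarith

lemma euclid (hG : Good a b τ g) {κ : Type} [Fintype κ]
    (G : V → (E → ZMod 2) → ZMod 3 → EuclideanSpace ℝ κ) {L R : ℝ} (hL : 0 < L)
    (hR : 10 ^ 6 * L ≤ R)
    (h1 : ∀ e δ t, ‖G (a e) δ t - G (b e) (δ + Pi.single e 1) (t + τ e)‖ ≤ L)
    (h2 : ∀ u δ t, R ≤ ‖G u δ t - G u δ (t + 1)‖) : False := by
  have hR0 : 0 < R := by linarith [mul_pos (by norm_num : (0 : ℝ) < 10 ^ 6) hL]
  set o : V → (E → ZMod 2) → ZMod 3 → EuclideanSpace ℝ κ :=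
    fun u δ t => (3 : ℝ) • G u δ t - ∑ s, G u δ s with ho
  set A : V → (E → ZMod 2) → ZMod 3 → PiLp 2 (fun _ : ZMod 3 => EuclideanSpace ℝ κ) :=
    fun u δ c => WithLp.toLp 2 fun t => o u δ (t + c) with hA
  have hAn : ∀ u δ c, ‖A u δ c‖ = ‖A u δ 0‖ := by
    intro u δ c
    rw [PiLp.norm_eq_of_L2, PiLp.norm_eq_of_L2]
    congr 1
    simp only [hA, add_zero]
    exact Equiv.sum_comp (Equiv.addRight c) fun t => ‖o u δ t‖ ^ 2
  have hAR : ∀ u δ, R ≤ ‖A u δ 0‖ := by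
    intro u δ
    have e1 : ‖o u δ 0‖ ≤ ‖A u δ 0‖ := by simpa [hA] using PiLp.norm_apply_le (A u δ 0) 0
    have e2 : ‖o u δ 1‖ ≤ ‖A u δ 0‖ := by simpa [hA] using PiLp.norm_apply_le (A u δ 0) 1
    have e3 : o u δ 0 - o u δ 1 = (3 : ℝ) • (G u δ 0 - G u δ (0 + 1)) := by
      simp only [ho, zero_add, smul_sub]
      abel
    have e4 := norm_sub_le (o u δ 0) (o u δ 1)
    rw [e3, norm_smul, Real.norm_ofNat] at e4
    linarith [h2 u δ 0]
  have hA0 : ∀ u δ c, A u δ c ≠ 0 := by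
    intro u δ c
    rw [← norm_pos_iff, hAn]
    exact hR0.trans_le (hAR u δ)
  refine vector hG (fun u δ t i => ‖A u δ 0‖⁻¹ * o u δ t i) (fun u δ i => ?_) (fun u δ => ?_)
    (fun e δ => ?_)
  · rw [← mul_sum]
    have : ∑ t, o u δ t i = 0 := by
      simp only [ho, sum_three, PiLp.sub_apply, PiLp.smul_apply, smul_eq_mul]
      have e1 : ∑ s, G u δ s = G u δ 0 + G u δ 1 + G u δ 2 := Fin.sum_univ_three _
      rw [e1]
      simp only [PiLp.add_apply]
      ring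
    rw [this, mul_zero]
  · simp only [mul_pow, ← mul_sum, ← EuclideanSpace.real_norm_sq_eq]
    have e1 : ∑ t, ‖o u δ t‖ ^ 2 = ‖A u δ 0‖ ^ 2 := by
      rw [PiLp.norm_sq_eq_of_L2]
      simp [hA]
    rw [e1]
    have := (hR0.trans_le (hAR u δ)).ne'
    field_simp
  · have e1 := normalize_sub (hA0 (a e) δ 0) (hA0 (b e) (δ + Pi.single e 1) (τ e))
    have e2 : ∑ t, ∑ i, (‖A (a e) δ 0‖⁻¹ * o (a e) δ t i -
        ‖A (b e) (δ + Pi.single e 1) 0‖⁻¹ * o (b e) (δ + Pi.single e 1) (t + τ e) i) ^ 2 =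
        ‖‖A (a e) δ 0‖⁻¹ • A (a e) δ 0 - ‖A (b e) (δ + Pi.single e 1) (τ e)‖⁻¹ •
          A (b e) (δ + Pi.single e 1) (τ e)‖ ^ 2 := by
      rw [PiLp.norm_sq_eq_of_L2, hAn (b e) _ (τ e)]
      refine sum_congr rfl fun t _ => ?_
      rw [EuclideanSpace.real_norm_sq_eq]
      simp [hA]
    have e3 : ∀ t, ‖o (a e) δ t - o (b e) (δ + Pi.single e 1) (t + τ e)‖ ≤ 6 * L := by
      intro t
      have e4 : ∑ s, G (b e) (δ + Pi.single e 1) s = ∑ s, G (b e) (δ + Pi.single e 1) (s + τ e) :=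
        (Equiv.sum_comp (Equiv.addRight (τ e)) fun s => G (b e) (δ + Pi.single e 1) s).symm
      have e5 : o (a e) δ t - o (b e) (δ + Pi.single e 1) (t + τ e) =
          (3 : ℝ) • (G (a e) δ t - G (b e) (δ + Pi.single e 1) (t + τ e)) -
            ∑ s, (G (a e) δ s - G (b e) (δ + Pi.single e 1) (s + τ e)) := by
        simp only [ho, e4, smul_sub, sum_sub_distrib]
        abel
      rw [e5]
      refine (norm_sub_le _ _).trans ?_
      rw [norm_smul, Real.norm_ofNat]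
      have e6 := (norm_sum_le _ _).trans (sum_le_sum (s := univ) fun s _ => h1 e δ s)
      rw [sum_const, card_univ, ZMod.card, nsmul_eq_mul] at e6
      push_cast at e6
      linarith [h1 e δ t]
    have e7 : ‖A (a e) δ 0 - A (b e) (δ + Pi.single e 1) (τ e)‖ ≤ 12 * L := by
      refine (sq_le_sq₀ (norm_nonneg _) (by positivity)).1 ?_
      rw [PiLp.norm_sq_eq_of_L2]
      have e8 : ∀ t, ‖(A (a e) δ 0 - A (b e) (δ + Pi.single e 1) (τ e)) t‖ ^ 2 ≤ (6 * L) ^ 2 := by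
        intro t
        refine pow_le_pow_left₀ (norm_nonneg _) ?_ 2
        simpa [hA] using e3 t
      refine (sum_le_sum fun t _ => e8 t).trans ?_
      rw [sum_const, card_univ, ZMod.card, nsmul_eq_mul]
      push_cast
      nlinarith
    have e9 : 2 * ‖A (a e) δ 0 - A (b e) (δ + Pi.single e 1) (τ e)‖ / ‖A (a e) δ 0‖ ≤
        24 / 10 ^ 6 := by
      rw [div_le_iff₀ (hR0.trans_le (hAR _ _))]
      linarith [hAR (a e) δ]
    rw [e2]
    refine (pow_le_pow_left₀ (norm_nonneg _) (e1.trans e9) 2).trans ?_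
    norm_num

theorem core (hG : Good a b τ g) {H : Type*} [NormedAddCommGroup H] [InnerProductSpace ℝ H]
    (G : V → (E → ZMod 2) → ZMod 3 → H) {L R : ℝ} (hL : 0 < L) (hR : 10 ^ 6 * L ≤ R)
    (h1 : ∀ e δ t, ‖G (a e) δ t - G (b e) (δ + Pi.single e 1) (t + τ e)‖ ≤ L)
    (h2 : ∀ u δ t, R ≤ ‖G u δ t - G u δ (t + 1)‖) : False := by
  set K : Submodule ℝ H := Submodule.span ℝ
    (Set.range fun x : V × (E → ZMod 2) × ZMod 3 => G x.1 x.2.1 x.2.2) with hK
  have : FiniteDimensional ℝ K := FiniteDimensional.span_of_finite ℝ (Set.finite_range _)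
  have hmem : ∀ u δ t, G u δ t ∈ K := fun u δ t => Submodule.subset_span ⟨(u, δ, t), rfl⟩
  set B := stdOrthonormalBasis ℝ K
  have hd : ∀ u δ t u' δ' t', ‖B.repr ⟨G u δ t, hmem u δ t⟩ - B.repr ⟨G u' δ' t', hmem u' δ' t'⟩‖ =
      ‖G u δ t - G u' δ' t'‖ := by
    intro u δ t u' δ' t'
    rw [← map_sub, B.repr.norm_map]
    rfl
  refine euclid hG (fun u δ t => B.repr ⟨G u δ t, hmem u δ t⟩) hL hR (fun e δ t => ?_)
    (fun u δ t => ?_)
  · rw [hd]; exact h1 e δ t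
  · rw [hd]; exact h2 u δ t

end Pool.Agent.H616Z.Coarse
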