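import Mathlib

/-! Coarse-geometric definitions. -/

set_option autoImplicit false

namespace Pool.Agent.H616Z.Coarse

universe u

/-- A metric space is uniformly locally finite: closed balls of a given radius have uniformly
bounded cardinality. -/
def ULF (X : Type) [MetricSpace X] : Prop :=
  ∀ r : ℝ, 0 < r → ∃ N : ℕ, ∀ x : X, (Metric.closedBall x r).encard ≤ N

/-- A coarse map between metric spaces. -/
def IsCoarseMap {X Y : Type} [MetricSpace X] [MetricSpace Y] (f : X → Y) : Prop :=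
  ∀ r : ℝ, 0 < r → ∃ s : ℝ, 0 < s ∧ ∀ x x' : X, dist x x' ≤ r → dist (f x) (f x') ≤ s

/-- A uniformly finite-to-one map. -/
def UnifFiniteToOne {X Y : Type} (f : X → Y) : Prop :=
  ∃ N : ℕ, ∀ y : Y, (f ⁻¹' {y}).encard ≤ N

/-- `X` coarsely embeds into a real Hilbert space (living in the universe `u`). -/
def CoarselyEmbeds (X : Type) [MetricSpace X] : Prop :=
  ∃ (H : Type u) (_ : NormedAddCommGroup H) (_ : InnerProductSpace ℝ H) (_ : CompleteSpace H)
    (g : X → H) (ρm ρp : ℝ → ℝ), (∀ t : ℝ, 0 ≤ t → 0 ≤ ρm t ∧ 0 ≤ ρp t) ∧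
      Filter.Tendsto ρm Filter.atTop Filter.atTop ∧
      ∀ x x' : X, ρm (dist x x') ≤ ‖g x - g x'‖ ∧ ‖g x - g x'‖ ≤ ρp (dist x x')

end Pool.Agent.H616Z.Coarse
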