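import Mathlib

set_option autoImplicit false

namespace Pool.Agent.H616Z.Coarse

open Finset
open Classical

/-- The properties of the base graph with voltages. -/
structure Good {V E : Type} [Fintype V] [Fintype E] (a b : E → V) (τ : E → ZMod 3) (g : ℕ) :
    Prop where
  pos : 0 < Fintype.card V
  edges : Fintype.card E ≤ 60 * Fintype.card V
  deg : ∀ (v : V) (S : Finset E), (∀ e ∈ S, a e = v ∨ b e = v) → #S ≤ 200000
  girth : ∀ (F : Finset E) (U : Finset V), F.Nonempty → #F ≤ g → (∀ e ∈ F, a e ∈ U ∧ b e ∈ U) →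
    #F < #U
  expand : ∀ (W : Finset (V × ZMod 3)) (S : Finset E), Fintype.card V ≤ 2 * #W →
    2 * #W ≤ 5 * Fintype.card V → (∀ e t, ¬((a e, t) ∈ W ↔ (b e, t + τ e) ∈ W) → e ∈ S) →
    Fintype.card V ≤ #S

/-- Indicator of a proposition. -/
noncomputable def ind (P : Prop) : ℝ := if P then 1 else 0

lemma ind_pos {P : Prop} (h : P) : ind P = 1 := if_pos h

lemma ind_neg {P : Prop} (h : ¬ P) : ind P = 0 := if_neg h

lemma sum_prod_eq {ι T : Type} [Fintype ι] [DecidableEq ι] [Fintype T] (f : ι → T → ℝ) :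
    ∑ ω : ι → T, ∏ e, f e (ω e) = ∏ e, ∑ θ, f e θ := by
  rw [Finset.prod_univ_sum, Fintype.piFinset_univ]

lemma sum_all_in {ι T : Type} [Fintype ι] [DecidableEq ι] [Fintype T] (hT : 0 < Fintype.card T) (F : Finset ι)
    (A : Finset T) :
    ∑ ω : ι → T, ind (∀ e ∈ F, ω e ∈ A) =
      ((#A : ℝ) / Fintype.card T) ^ #F * (Fintype.card T : ℝ) ^ Fintype.card ι := by
  have h1 : ∀ ω : ι → T, ind (∀ e ∈ F, ω e ∈ A) =
      ∏ e, (if e ∈ F then (if ω e ∈ A then (1 : ℝ) else 0) else 1) := by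
    intro ω
    by_cases h : ∀ e ∈ F, ω e ∈ A
    · rw [ind_pos h]
      symm
      refine Finset.prod_eq_one fun e _ => ?_
      by_cases he : e ∈ F
      · simp [he, h e he]
      · simp [he]
    · rw [ind_neg h]
      push Not at h
      obtain ⟨e, he, h2⟩ := h
      symm
      exact Finset.prod_eq_zero (mem_univ e) (by simp [he, h2])
  simp only [h1]
  rw [sum_prod_eq (fun e θ => if e ∈ F then (if θ ∈ A then (1 : ℝ) else 0) else 1)]
  have hM : (Fintype.card T : ℝ) ≠ 0 := by exact_mod_cast hT.ne'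
  have h2 : ∀ e, ∑ θ : T, (if e ∈ F then (if θ ∈ A then (1 : ℝ) else 0) else 1) =
      (if e ∈ F then ((#A : ℝ) / Fintype.card T) else 1) * Fintype.card T := by
    intro e
    by_cases he : e ∈ F
    · simp only [he, if_true]
      rw [div_mul_cancel₀ _ hM]
      simp
    · simp [he]
  simp only [h2]
  rw [Finset.prod_mul_distrib, Finset.prod_const, Finset.prod_ite_mem, univ_inter,
    Finset.prod_const, card_univ]

section Model

variable (N : ℕ)

/-- One random edge with voltage. -/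
abbrev T := Fin N × Fin N × ZMod 3

lemma card_T : Fintype.card (T N) = 3 * N ^ 2 := by
  simp [T, ZMod.card]
  ring

variable {N}

def cross (W : Finset (Fin N × ZMod 3)) (θ : T N) : Prop :=
  ∃ t, ¬((θ.1, t) ∈ W ↔ (θ.2.1, t + θ.2.2) ∈ W)

noncomputable def inc (v : Fin N) : Finset (T N) := {θ | θ.1 = v ∨ θ.2.1 = v}

noncomputable def box (U : Finset (Fin N)) : Finset (T N) := U ×ˢ U ×ˢ univ

lemma card_cross (W : Finset (Fin N × ZMod 3)) :
    #W * (3 * N - #W) ≤ #{θ : T N | cross W θ} * 3 := by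
  have h1 : #(W ×ˢ Wᶜ) ≤ #(({θ : T N | cross W θ} : Finset (T N)) ×ˢ (univ : Finset (ZMod 3))) := by
    refine card_le_card_of_injOn (fun p => ((p.1.1, p.2.1, p.2.2 - p.1.2), p.1.2)) ?_ ?_
    · rintro ⟨⟨x, t⟩, ⟨y, s⟩⟩ hp
      simp only [coe_product, Set.mem_prod, mem_coe, mem_compl] at hp
      simp only [coe_product, Set.mem_prod, mem_coe, mem_filter, mem_univ, true_and, and_true]
      refine ⟨t, ?_⟩
      simp only [add_sub_cancel]
      tauto
    · rintro ⟨⟨x, t⟩, ⟨y, s⟩⟩ - ⟨⟨x', t'⟩, ⟨y', s'⟩⟩ - h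
      simp only [Prod.mk.injEq] at h ⊢
      obtain ⟨⟨h1, h2, h3⟩, h4⟩ := h
      subst h1 h2 h4
      exact ⟨⟨rfl, rfl⟩, rfl, sub_left_injective h3⟩
  rw [card_product, card_product, card_compl, card_univ, ZMod.card] at h1
  simpa [mul_comm] using h1

lemma card_inc (v : Fin N) : #(inc v) ≤ 6 * N := by
  have h1 : inc v ⊆ ({v} ×ˢ univ ×ˢ univ) ∪ (univ ×ˢ {v} ×ˢ univ) := by
    intro θ hθ
    simp only [inc, mem_filter, mem_univ, true_and] at hθ
    simpa only [mem_union, mem_product, mem_singleton, mem_univ, and_true, true_and] using hθ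
  refine (card_le_card h1).trans ((card_union_le _ _).trans ?_)
  simp [ZMod.card]
  omega

lemma card_box (U : Finset (Fin N)) : #(box U) = 3 * #U ^ 2 := by
  simp [box, ZMod.card]
  ring

lemma sum_cross (_hN : 0 < N) (W : Finset (Fin N × ZMod 3)) (h1 : N ≤ 2 * #W)
    (h2 : 2 * #W ≤ 5 * N) :
    ∑ ω : Fin (60 * N) → T N, ∏ e, (if cross W (ω e) then (1 / 2 : ℝ) else 1) ≤
      (1 / 2) ^ (6 * N) * (Fintype.card (T N) : ℝ) ^ (60 * N) := by
  rw [sum_prod_eq (fun _ θ => if cross W θ then (1 / 2 : ℝ) else 1), Finset.prod_const, card_univ,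
    Fintype.card_fin]
  have h3 : ∑ θ : T N, (if cross W θ then (1 / 2 : ℝ) else 1) =
      Fintype.card (T N) - (#{θ : T N | cross W θ} : ℝ) / 2 := by
    have : ∀ θ : T N, (if cross W θ then (1 / 2 : ℝ) else 1) =
        1 - (if cross W θ then (1 : ℝ) else 0) / 2 := by
      intro θ; split_ifs <;> norm_num
    simp only [this]
    rw [Finset.sum_sub_distrib, ← Finset.sum_div, Finset.sum_boole]
    simp
  have h4 := card_cross W
  have h5 : #W ≤ 3 * N := by omega
  have h6 : (#W : ℝ) * (3 * N - #W) ≤ (#{θ : T N | cross W θ} : ℝ) * 3 := by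
    exact_mod_cast (by simpa [Nat.cast_sub h5] using (Nat.cast_le (α := ℝ)).2 h4 :
      (#W : ℝ) * (3 * N - #W) ≤ (#{θ : T N | cross W θ} : ℝ) * 3)
  have h1' : (N : ℝ) ≤ 2 * #W := by exact_mod_cast h1
  have h2' : 2 * (#W : ℝ) ≤ 5 * N := by exact_mod_cast h2
  have hM : (Fintype.card (T N) : ℝ) = 3 * N ^ 2 := by rw [card_T]; push_cast; ring
  have h7 : Fintype.card (T N) - (#{θ : T N | cross W θ} : ℝ) / 2 ≤
      67 / 72 * Fintype.card (T N) := by
    rw [hM]
    nlinarith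
  have h8 : 0 ≤ Fintype.card (T N) - (#{θ : T N | cross W θ} : ℝ) / 2 := by
    rw [← h3]
    exact Finset.sum_nonneg fun θ _ => by split_ifs <;> norm_num
  rw [h3]
  refine (pow_le_pow_left₀ h8 h7 _).trans ?_
  rw [mul_pow]
  refine mul_le_mul_of_nonneg_right ?_ (by positivity)
  rw [show 60 * N = 10 * (6 * N) by ring, pow_mul]
  exact pow_le_pow_left₀ (by positivity) (by norm_num) _

/-- Edges at a vertex of large degree. -/
noncomputable def bad1 (ω : Fin (60 * N) → T N) : Finset (Fin (60 * N)) :=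
  {e | ∃ v, ω e ∈ inc v ∧ 200000 < #{e' | ω e' ∈ inc v}}

/-- Edges in a small dense set. -/
noncomputable def bad2 (g : ℕ) (ω : Fin (60 * N) → T N) : Finset (Fin (60 * N)) :=
  {e | ∃ k ∈ range (g + 1), ∃ F ∈ powersetCard k (univ : Finset (Fin (60 * N))),
    ∃ U ∈ powersetCard k (univ : Finset (Fin N)), e ∈ F ∧ ∀ e' ∈ F, ω e' ∈ box U}

lemma card_bad1 (ω : Fin (60 * N) → T N) :
    (#(bad1 ω) : ℝ) ≤ ∑ v : Fin N, ∑ e, ∑ e',
      ind (∀ x ∈ ({e, e'} : Finset (Fin (60 * N))), ω x ∈ inc v) / 200000 := by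
  have h1 : bad1 ω ⊆ (univ : Finset (Fin N)).biUnion fun v =>
      if 200000 < #{e' | ω e' ∈ inc v} then univ.filter (fun e' => ω e' ∈ inc v) else ∅ := by
    intro e he
    simp only [bad1, mem_filter, mem_univ, true_and] at he
    obtain ⟨v, h1, h2⟩ := he
    refine mem_biUnion.2 ⟨v, mem_univ _, ?_⟩
    rw [if_pos h2]
    simpa using h1
  have h2 := (card_le_card h1).trans card_biUnion_le
  refine le_trans ((Nat.cast_le (α := ℝ)).2 h2) ?_
  push_cast
  refine Finset.sum_le_sum fun v _ => ?_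
  have h3 : ∑ e, ∑ e',
      ind (∀ x ∈ ({e, e'} : Finset (Fin (60 * N))), ω x ∈ inc v) / 200000 =
      (#{e' | ω e' ∈ inc v} : ℝ) ^ 2 / 200000 := by
    simp only [← Finset.sum_div]
    congr 1
    rw [← Finset.sum_boole, sq, Finset.sum_mul_sum]
    refine Finset.sum_congr rfl fun e _ => Finset.sum_congr rfl fun e' _ => ?_
    by_cases a1 : ω e ∈ inc v <;> by_cases a2 : ω e' ∈ inc v <;> simp [a1, a2, ind]
  rw [h3]
  split_ifs with h
  · have : (200000 : ℝ) < #{e' | ω e' ∈ inc v} := by exact_mod_cast h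
    rw [le_div_iff₀ (by norm_num)]
    nlinarith
  · simp only [card_empty, Nat.cast_zero]
    positivity

lemma sum_bad1 (hN : 2 ≤ N) :
    ∑ ω : Fin (60 * N) → T N, (#(bad1 ω) : ℝ) ≤
      N / 8 * (Fintype.card (T N) : ℝ) ^ (60 * N) := by
  have hT : 0 < Fintype.card (T N) := by rw [card_T]; positivity
  have hN' : (2 : ℝ) ≤ N := by exact_mod_cast hN
  have hM : (Fintype.card (T N) : ℝ) = 3 * N ^ 2 := by rw [card_T]; push_cast; ring
  refine (Finset.sum_le_sum fun ω _ => card_bad1 ω).trans ?_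
  rw [Finset.sum_comm]
  have key : ∀ v : Fin N, ∑ ω : Fin (60 * N) → T N, ∑ e, ∑ e',
      ind (∀ x ∈ ({e, e'} : Finset (Fin (60 * N))), ω x ∈ inc v) / 200000 ≤
      1 / 8 * (Fintype.card (T N) : ℝ) ^ (60 * N) := by
    intro v
    have hq : (#(inc v) : ℝ) / Fintype.card (T N) ≤ 2 / N := by
      rw [hM, div_le_div_iff₀ (by positivity) (by positivity)]
      have : (#(inc v) : ℝ) ≤ 6 * N := by exact_mod_cast card_inc v
      nlinarith
    have hq0 : 0 ≤ (#(inc v) : ℝ) / Fintype.card (T N) := by positivity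
    rw [Finset.sum_comm]
    have h1 : ∀ e : Fin (60 * N), ∑ ω : Fin (60 * N) → T N, ∑ e',
        ind (∀ x ∈ ({e, e'} : Finset (Fin (60 * N))), ω x ∈ inc v) / 200000 ≤
        (2 / N + 60 * N * (2 / N) ^ 2) / 200000 * (Fintype.card (T N) : ℝ) ^ (60 * N) := by
      intro e
      rw [Finset.sum_comm]
      have h2 : ∀ e' : Fin (60 * N), ∑ ω : Fin (60 * N) → T N,
          ind (∀ x ∈ ({e, e'} : Finset (Fin (60 * N))), ω x ∈ inc v) / 200000 ≤
          ((if e' = e then (2 / N : ℝ) else 0) + (2 / N) ^ 2) / 200000 *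
            (Fintype.card (T N) : ℝ) ^ (60 * N) := by
        intro e'
        rw [← Finset.sum_div, sum_all_in hT, Fintype.card_fin, div_mul_eq_mul_div]
        gcongr
        by_cases h : e' = e
        · subst h
          simp only [mem_singleton, insert_eq_of_mem, card_singleton, pow_one, if_true]
          have : (0 : ℝ) ≤ (2 / N) ^ 2 := by positivity
          linarith
        · rw [card_pair (Ne.symm h), if_neg h, zero_add]
          exact pow_le_pow_left₀ hq0 hq 2
      refine (Finset.sum_le_sum fun e' _ => h2 e').trans (le_of_eq ?_)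
      rw [← Finset.sum_mul, ← Finset.sum_div, Finset.sum_add_distrib]
      simp
    refine (Finset.sum_le_sum fun e _ => h1 e).trans ?_
    rw [Finset.sum_const, card_univ, Fintype.card_fin, nsmul_eq_mul, ← mul_assoc]
    refine mul_le_mul_of_nonneg_right ?_ (by positivity)
    push_cast
    have : (60 * N : ℝ) * ((2 / N + 60 * N * (2 / N) ^ 2) / 200000) = 14520 / 200000 := by
      field_simp
      norm_num
    rw [this]
    norm_num
  refine (Finset.sum_le_sum fun v _ => key v).trans (le_of_eq ?_)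
  rw [Finset.sum_const, card_univ, Fintype.card_fin, nsmul_eq_mul]
  ring

lemma card_bad2 (g : ℕ) (ω : Fin (60 * N) → T N) :
    (#(bad2 g ω) : ℝ) ≤ ∑ k ∈ range (g + 1), ∑ F ∈ powersetCard k (univ : Finset (Fin (60 * N))),
      ∑ U ∈ powersetCard k (univ : Finset (Fin N)),
        k * ind (∀ e' ∈ F, ω e' ∈ box U) := by
  have h1 : bad2 g ω ⊆ (range (g + 1)).biUnion fun k =>
      (powersetCard k (univ : Finset (Fin (60 * N)))).biUnion fun F =>
        (powersetCard k (univ : Finset (Fin N))).biUnion fun U =>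
          if ∀ e' ∈ F, ω e' ∈ box U then F else ∅ := by
    intro e he
    simp only [bad2, mem_filter, mem_univ, true_and] at he
    obtain ⟨k, hk, F, hF, U, hU, h1, h2⟩ := he
    refine mem_biUnion.2 ⟨k, hk, mem_biUnion.2 ⟨F, hF, mem_biUnion.2 ⟨U, hU, ?_⟩⟩⟩
    rw [if_pos h2]
    exact h1
  have h2 := (card_le_card h1).trans (card_biUnion_le.trans (Finset.sum_le_sum fun k _ =>
    card_biUnion_le.trans (Finset.sum_le_sum fun F _ => card_biUnion_le)))
  refine le_trans ((Nat.cast_le (α := ℝ)).2 h2) ?_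
  push_cast
  refine Finset.sum_le_sum fun k _ => Finset.sum_le_sum fun F hF =>
    Finset.sum_le_sum fun U _ => ?_
  split_ifs with h
  · rw [(mem_powersetCard.1 hF).2, ind_pos h]; simp
  · rw [ind_neg h]; simp

lemma sum_bad2 (hN : 0 < N) (g : ℕ) :
    ∑ ω : Fin (60 * N) → T N, (#(bad2 g ω) : ℝ) ≤
      (∑ k ∈ range (g + 1), (k : ℝ) * (60 * k ^ 2) ^ k) * (Fintype.card (T N) : ℝ) ^ (60 * N) := by
  have hT : 0 < Fintype.card (T N) := by rw [card_T]; positivity
  have hN' : (0 : ℝ) < N := by exact_mod_cast hN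
  have hM : (Fintype.card (T N) : ℝ) = 3 * N ^ 2 := by rw [card_T]; push_cast; ring
  refine (Finset.sum_le_sum fun ω _ => card_bad2 g ω).trans ?_
  rw [Finset.sum_comm, Finset.sum_mul]
  refine Finset.sum_le_sum fun k _ => ?_
  rw [Finset.sum_comm]
  have h1 : ∀ F ∈ powersetCard k (univ : Finset (Fin (60 * N))),
      ∑ ω : Fin (60 * N) → T N, ∑ U ∈ powersetCard k (univ : Finset (Fin N)),
        k * ind (∀ e' ∈ F, ω e' ∈ box U) ≤
      (N : ℝ) ^ k * (k * ((k : ℝ) ^ 2 / N ^ 2) ^ k * (Fintype.card (T N) : ℝ) ^ (60 * N)) := by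
    intro F hF
    rw [Finset.sum_comm]
    have h2 : ∀ U ∈ powersetCard k (univ : Finset (Fin N)),
        ∑ ω : Fin (60 * N) → T N, k * ind (∀ e' ∈ F, ω e' ∈ box U) =
        k * ((k : ℝ) ^ 2 / N ^ 2) ^ k * (Fintype.card (T N) : ℝ) ^ (60 * N) := by
      intro U hU
      rw [← Finset.mul_sum, sum_all_in hT, Fintype.card_fin, card_box, (mem_powersetCard.1 hF).2,
        (mem_powersetCard.1 hU).2, mul_assoc]
      congr 3
      rw [hM]
      push_cast
      field_simp
    rw [Finset.sum_congr rfl h2, Finset.sum_const, card_powersetCard, card_univ, Fintype.card_fin,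
      nsmul_eq_mul]
    refine mul_le_mul_of_nonneg_right ?_ (by positivity)
    exact_mod_cast Nat.choose_le_pow N k
  refine (Finset.sum_le_sum h1).trans ?_
  rw [Finset.sum_const, card_powersetCard, card_univ, Fintype.card_fin, nsmul_eq_mul]
  have h3 : (((60 * N).choose k : ℕ) : ℝ) ≤ (60 * N : ℝ) ^ k := by
    exact_mod_cast Nat.choose_le_pow (60 * N) k
  refine (mul_le_mul_of_nonneg_right h3 (by positivity)).trans (le_of_eq ?_)
  have h4 : (60 * (k : ℝ) ^ 2) ^ k = (60 * N : ℝ) ^ k * (N : ℝ) ^ k * ((k : ℝ) ^ 2 / N ^ 2) ^ k := by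
    rw [← mul_pow, ← mul_pow]
    congr 1
    field_simp
  rw [h4]
  ring

lemma exists_omega (g : ℕ) : ∃ N : ℕ, g ≤ N ∧ 0 < N ∧ ∃ ω : Fin (60 * N) → T N,
    #(bad1 ω) + #(bad2 g ω) ≤ N ∧ ∀ W : Finset (Fin N × ZMod 3), N ≤ 2 * #W → 2 * #W ≤ 5 * N →
      2 * N ≤ #{e | cross W (ω e)} := by
  obtain ⟨N₀, hN₀⟩ := exists_nat_ge (8 * ∑ k ∈ range (g + 1), (k : ℝ) * (60 * k ^ 2) ^ k)
  set N := N₀ + g + 2 with hNdef
  have hN2 : 2 ≤ N := by omega
  have hN : 0 < N := by omega
  have hN' : (0 : ℝ) < N := by exact_mod_cast hN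
  refine ⟨N, by omega, hN, ?_⟩
  have hT : 0 < Fintype.card (T N) := by rw [card_T]; positivity
  set P : ℝ := (Fintype.card (T N) : ℝ) ^ (60 * N) with hP
  have hP0 : 0 < P := by positivity
  set 𝒲 : Finset (Finset (Fin N × ZMod 3)) := {W | N ≤ 2 * #W ∧ 2 * #W ≤ 5 * N} with h𝒲
  have h1 : ∑ ω : Fin (60 * N) → T N, (((#(bad1 ω) : ℝ) + #(bad2 g ω)) / N +
      ∑ W ∈ 𝒲, 2 ^ (2 * N) * ∏ e, (if cross W (ω e) then (1 / 2 : ℝ) else 1)) <
      ∑ _ω : Fin (60 * N) → T N, (1 : ℝ) := by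
    rw [Finset.sum_add_distrib, ← Finset.sum_div, Finset.sum_add_distrib, Finset.sum_comm,
      Finset.sum_const, card_univ, Fintype.card_fun, Fintype.card_fin, nsmul_eq_mul, mul_one]
    push_cast
    rw [← hP]
    have a1 := sum_bad1 hN2
    have a2 := sum_bad2 hN g
    rw [← hP] at a1 a2
    have a3 : (∑ k ∈ range (g + 1), (k : ℝ) * (60 * k ^ 2) ^ k) ≤ (N : ℝ) / 8 := by
      have : (N₀ : ℝ) ≤ N := by exact_mod_cast (by omega : N₀ ≤ N)
      linarith
    have a4 : ((∑ ω : Fin (60 * N) → T N, (#(bad1 ω) : ℝ)) +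
        ∑ ω : Fin (60 * N) → T N, (#(bad2 g ω) : ℝ)) / N ≤ P / 4 := by
      rw [div_le_iff₀ hN']
      have := mul_le_mul_of_nonneg_right a3 hP0.le
      linarith
    have a5 : ∀ W ∈ 𝒲, ∑ ω : Fin (60 * N) → T N,
        2 ^ (2 * N) * ∏ e, (if cross W (ω e) then (1 / 2 : ℝ) else 1) ≤
        2 ^ (2 * N) * ((1 / 2) ^ (6 * N) * P) := by
      intro W hW
      simp only [h𝒲, mem_filter, mem_univ, true_and] at hW
      rw [← Finset.mul_sum]
      exact mul_le_mul_of_nonneg_left (sum_cross hN W hW.1 hW.2) (by positivity)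
    have a6 := Finset.sum_le_sum a5
    rw [Finset.sum_const, nsmul_eq_mul] at a6
    have a7 : (#𝒲 : ℝ) ≤ 2 ^ (3 * N) := by
      have := card_le_univ 𝒲
      rw [Fintype.card_finset, Fintype.card_prod, Fintype.card_fin, ZMod.card, mul_comm] at this
      exact_mod_cast this
    have a8 : (#𝒲 : ℝ) * (2 ^ (2 * N) * ((1 / 2) ^ (6 * N) * P)) ≤ P / 2 := by
      refine (mul_le_mul_of_nonneg_right a7 (by positivity)).trans ?_
      have e1 : (2 : ℝ) ^ (3 * N) * (2 ^ (2 * N) * ((1 / 2) ^ (6 * N) * P)) = (1 / 2) ^ N * P := by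
        rw [show 6 * N = 3 * N + 2 * N + N by ring, pow_add, pow_add]
        simp only [one_div, inv_pow]
        field_simp
      rw [e1]
      have e2 : (1 / 2 : ℝ) ^ N ≤ (1 / 2) ^ 1 :=
        pow_le_pow_of_le_one (by norm_num) (by norm_num) hN
      nlinarith
    linarith
  obtain ⟨ω, -, hω⟩ := Finset.exists_lt_of_sum_lt h1
  have hnn : ∀ W ∈ 𝒲, 0 ≤ 2 ^ (2 * N) * ∏ e, (if cross W (ω e) then (1 / 2 : ℝ) else 1) :=
    fun W _ => mul_nonneg (by positivity)
      (Finset.prod_nonneg fun e _ => by split_ifs <;> norm_num)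
  refine ⟨ω, ?_, fun W hW1 hW2 => ?_⟩
  · have b1 := Finset.sum_nonneg hnn
    have b2 : ((#(bad1 ω) : ℝ) + #(bad2 g ω)) / N < 1 := by linarith
    rw [div_lt_one hN'] at b2
    exact_mod_cast b2.le
  · have hW : W ∈ 𝒲 := by simp [h𝒲, hW1, hW2]
    have b1 := Finset.single_le_sum hnn hW
    have b2 : 0 ≤ ((#(bad1 ω) : ℝ) + #(bad2 g ω)) / N := by positivity
    have b3 : 2 ^ (2 * N) * ∏ e, (if cross W (ω e) then (1 / 2 : ℝ) else 1) < 1 := by linarith
    rw [Finset.prod_ite, Finset.prod_const, Finset.prod_const_one, mul_one, one_div, inv_pow,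
      ← div_eq_mul_inv, div_lt_one (by positivity)] at b3
    exact ((pow_lt_pow_iff_right₀ (by norm_num : (1 : ℝ) < 2)).1 b3).le

end Model

theorem exists_good (g : ℕ) : ∃ (N : ℕ) (D : Finset (Fin (60 * N))) (a b : D → Fin N)
    (τ : D → ZMod 3), Good a b τ g := by
  obtain ⟨N, hg, hN, ω, h1, h2⟩ := exists_omega g
  set D : Finset (Fin (60 * N)) := (bad1 ω ∪ bad2 g ω)ᶜ with hD
  refine ⟨N, D, fun e => (ω e).1, fun e => (ω e).2.1, fun e => (ω e).2.2, ?_, ?_, ?_, ?_, ?_⟩
  · simpa using hN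
  · simpa using card_le_univ D
  · intro v S hS
    by_contra hcon
    push Not at hcon
    have h3 : #S ≤ #{e' | ω e' ∈ inc v} := by
      refine card_le_card_of_injOn (fun e => e.1) ?_ (Subtype.val_injective.injOn)
      intro e he
      simpa [inc] using hS e he
    obtain ⟨e, he⟩ : S.Nonempty := by
      rw [← card_pos]; omega
    have h4 : (e : Fin (60 * N)) ∈ bad1 ω := by
      simp only [bad1, mem_filter, mem_univ, true_and]
      exact ⟨v, by simpa [inc] using hS e he, by omega⟩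
    exact mem_compl.1 e.2 (mem_union_left _ h4)
  · intro F U₀ hF hFg hU₀
    by_contra hcon
    push Not at hcon
    obtain ⟨U, hU1, hU2⟩ := Finset.exists_superset_card_eq hcon
      (by rw [Fintype.card_fin]; omega)
    obtain ⟨e, he⟩ := hF
    have h4 : (e : Fin (60 * N)) ∈ bad2 g ω := by
      simp only [bad2, mem_filter, mem_univ, true_and]
      refine ⟨#F, mem_range.2 (by omega), F.map (Function.Embedding.subtype _), by simp, U,
        by simp [hU2], mem_map.2 ⟨e, he, rfl⟩, ?_⟩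
      intro e' he'
      obtain ⟨x, hx, rfl⟩ := mem_map.1 he'
      simp only [box, mem_product, mem_univ, and_true, Function.Embedding.subtype_apply]
      exact ⟨hU1 (hU₀ x hx).1, hU1 (hU₀ x hx).2⟩
    exact mem_compl.1 e.2 (mem_union_right _ h4)
  · intro W S hW1 hW2 hS
    rw [Fintype.card_fin] at hW1 hW2 ⊢
    have h3 := h2 W hW1 hW2
    have h4 : ({e | cross W (ω e)} : Finset (Fin (60 * N))) ⊆
        (S.map (Function.Embedding.subtype _)) ∪ (bad1 ω ∪ bad2 g ω) := by
      intro e he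
      by_cases h : e ∈ D
      · refine mem_union_left _ (mem_map.2 ⟨⟨e, h⟩, ?_, rfl⟩)
        obtain ⟨t, ht⟩ := (mem_filter.1 he).2
        exact hS ⟨e, h⟩ t ht
      · rw [hD, mem_compl, not_not] at h
        exact mem_union_right _ h
    have h5 := (card_le_card h4).trans (card_union_le _ _)
    have h6 := card_union_le (bad1 ω) (bad2 g ω)
    rw [card_map] at h5
    omega

end Pool.Agent.H616Z.Coarse
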