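import Pool.Agent.H616Z.Coarse.Random

set_option autoImplicit false

namespace Pool.Agent.H616Z.Coarse

open Finset

variable {V E : Type} [Fintype V] [Fintype E] [DecidableEq V] [DecidableEq E]
  {a b : E → V} {τ : E → ZMod 3} {g : ℕ}

/-- Total variation of a function on the threefold cover. -/
noncomputable def tv (a b : E → V) (τ : E → ZMod 3) (φ : V × ZMod 3 → ℝ) : ℝ :=
  ∑ e, ∑ t, |φ (a e, t) - φ (b e, t + τ e)|

/-- Edge boundary in the threefold cover. -/
noncomputable def cut (a b : E → V) (τ : E → ZMod 3) (S : Finset (V × ZMod 3)) : ℝ :=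
  tv a b τ fun x => ind (x ∈ S)

omit [Fintype V] [DecidableEq V] [DecidableEq E] in
lemma tv_nonneg (φ : V × ZMod 3 → ℝ) : 0 ≤ tv a b τ φ :=
  sum_nonneg fun _ _ => sum_nonneg fun _ _ => abs_nonneg _

omit [Fintype V] [DecidableEq E] in
lemma cut_union (Z S : Finset (V × ZMod 3)) : cut a b τ (Z ∪ S) ≤ cut a b τ Z + cut a b τ S := by
  unfold cut tv
  rw [← sum_add_distrib]
  refine sum_le_sum fun e _ => ?_
  rw [← sum_add_distrib]
  refine sum_le_sum fun t _ => ?_
  simp only [mem_union]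
  by_cases h1 : (a e, t) ∈ Z <;> by_cases h2 : (a e, t) ∈ S <;>
    by_cases h3 : (b e, t + τ e) ∈ Z <;> by_cases h4 : (b e, t + τ e) ∈ S <;>
    simp [ind, h1, h2, h3, h4]

omit [DecidableEq V] [DecidableEq E] in
lemma cut_ge (hG : Good a b τ g) (W : Finset (V × ZMod 3)) (h1 : Fintype.card V ≤ 2 * #W)
    (h2 : 2 * #W ≤ 5 * Fintype.card V) : (Fintype.card V : ℝ) ≤ cut a b τ W := by
  classical
  have h3 := hG.expand W {e | ∃ t, ¬((a e, t) ∈ W ↔ (b e, t + τ e) ∈ W)} h1 h2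
    (fun e t h => mem_filter.2 ⟨mem_univ _, t, h⟩)
  refine le_trans ((Nat.cast_le (α := ℝ)).2 h3) ?_
  rw [card_eq_sum_ones, Nat.cast_sum]
  unfold cut tv
  refine le_trans (sum_le_sum fun e he => ?_) (sum_le_sum_of_subset_of_nonneg (subset_univ _)
    fun e _ _ => sum_nonneg fun _ _ => abs_nonneg _)
  obtain ⟨t, ht⟩ := (mem_filter.1 he).2
  refine le_trans ?_ (single_le_sum (f := fun t => |ind ((a e, t) ∈ W) - ind ((b e, t + τ e) ∈ W)|)
    (fun _ _ => abs_nonneg _) (mem_univ t))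
  by_cases h4 : (a e, t) ∈ W <;> by_cases h5 : (b e, t + τ e) ∈ W <;> simp_all [ind]

omit [DecidableEq E] in
lemma exists_Z (hG : Good a b τ g) : ∃ Z : Finset (V × ZMod 3), 2 * #Z ≤ Fintype.card V ∧
    ∀ S : Finset (V × ZMod 3), #S ≤ 2 * Fintype.card V → (#(S \ Z) : ℝ) ≤ 3 * cut a b τ S := by
  classical
  set 𝒵 : Finset (Finset (V × ZMod 3)) :=
    {W | 2 * #W ≤ 5 * Fintype.card V ∧ 3 * cut a b τ W ≤ #W} with h𝒵
  have hne : 𝒵.Nonempty := ⟨∅, by simp [h𝒵, cut, tv, ind]⟩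
  have hsmall : ∀ W ∈ 𝒵, 2 * #W ≤ Fintype.card V := by
    intro W hW
    simp only [h𝒵, mem_filter, mem_univ, true_and] at hW
    by_contra hcon
    push Not at hcon
    have h1 := cut_ge hG W hcon.le hW.1
    have h2 : (2 * #W : ℝ) ≤ 5 * Fintype.card V := by exact_mod_cast hW.1
    have h3 : (0 : ℝ) < Fintype.card V := by exact_mod_cast hG.pos
    linarith [hW.2]
  obtain ⟨Z, hZ, hmax⟩ := exists_max_image 𝒵 card hne
  refine ⟨Z, hsmall Z hZ, fun S hS => ?_⟩
  by_contra hcon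
  push Not at hcon
  have h1 := hsmall Z hZ
  have h2 : #(Z ∪ S) = #Z + #(S \ Z) := by
    rw [← card_union_of_disjoint disjoint_sdiff, union_sdiff_self_eq_union]
  have h3 : #(S \ Z) ≤ #S := card_le_card sdiff_subset
  have h4 : Z ∪ S ∈ 𝒵 := by
    simp only [h𝒵, mem_filter, mem_univ, true_and] at hZ ⊢
    refine ⟨by omega, ?_⟩
    have := cut_union (a := a) (b := b) (τ := τ) Z S
    rw [h2]
    push_cast
    linarith [hZ.2]
  have h5 := hmax _ h4
  have h6 : #(S \ Z) = 0 := by omega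
  rw [h6] at hcon
  have := tv_nonneg (a := a) (b := b) (τ := τ) (fun x => ind (x ∈ S))
  unfold cut at hcon
  push_cast at hcon
  linarith

omit [DecidableEq E] in
lemma coarea {Z : Finset (V × ZMod 3)}
    (hZ : ∀ S : Finset (V × ZMod 3), #S ≤ 2 * Fintype.card V → (#(S \ Z) : ℝ) ≤ 3 * cut a b τ S) :
    ∀ (n : ℕ) (φ : V × ZMod 3 → ℝ), (∀ x, 0 ≤ φ x) → #{x | φ x ≠ 0} ≤ n → n ≤ 2 * Fintype.card V →
      ∑ x ∈ Zᶜ, φ x ≤ 3 * tv a b τ φ := by
  intro n
  induction n with
  | zero =>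
    intro φ _ h _
    have h1 : ∀ x, φ x = 0 := by
      intro x
      by_contra hx
      have : x ∈ ({x | φ x ≠ 0} : Finset (V × ZMod 3)) := by simpa using hx
      have := card_pos.2 ⟨x, this⟩
      omega
    simp only [h1, sum_const_zero]
    exact mul_nonneg (by norm_num) (tv_nonneg φ)
  | succ n ih =>
    intro φ h0 h hn
    by_cases hle : #{x | φ x ≠ 0} ≤ n
    · exact ih φ h0 hle (by omega)
    set S : Finset (V × ZMod 3) := {x | φ x ≠ 0} with hS
    have hne : S.Nonempty := by rw [← card_pos]; omega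
    obtain ⟨x₀, hx₀, hmin⟩ := exists_min_image S φ hne
    set μ := φ x₀ with hμ
    have hμ0 : 0 ≤ μ := h0 x₀
    have hmem : ∀ x, x ∈ S ↔ φ x ≠ 0 := by intro x; simp [hS]
    set φ' : V × ZMod 3 → ℝ := fun x => φ x - μ * ind (x ∈ S) with hφ'
    have h1 : ∀ x, 0 ≤ φ' x := by
      intro x
      by_cases hx : x ∈ S
      · simp only [hφ', ind_pos hx, mul_one, sub_nonneg]
        exact hmin x hx
      · simp only [hφ', ind_neg hx, mul_zero, sub_zero]
        exact h0 x
    have h2 : ({x | φ' x ≠ 0} : Finset (V × ZMod 3)) ⊆ S.erase x₀ := by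
      intro x hx
      have hx' : φ' x ≠ 0 := (mem_filter.1 hx).2
      rw [mem_erase]
      constructor
      · rintro rfl
        apply hx'
        simp only [hφ', ind_pos hx₀, mul_one, hμ, sub_self]
      · by_contra hxS
        apply hx'
        have : φ x = 0 := by
          by_contra h3
          exact hxS ((hmem x).2 h3)
        simp only [hφ', ind_neg hxS, this, mul_zero, sub_zero]
    have h3 : #({x | φ' x ≠ 0} : Finset (V × ZMod 3)) ≤ n := by
      have := card_le_card h2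
      rw [card_erase_of_mem hx₀] at this
      omega
    have h4 := ih φ' h1 h3 (by omega)
    have h5 := hZ S (by omega)
    have h6 : ∑ x ∈ Zᶜ, φ x = ∑ x ∈ Zᶜ, φ' x + μ * #(S \ Z) := by
      have : (#(S \ Z) : ℝ) = ∑ x ∈ Zᶜ, ind (x ∈ S) := by
        have e1 : S \ Z = Zᶜ.filter (fun x => x ∈ S) := by
          ext x; simp [and_comm]
        rw [e1, ← sum_boole]
        refine sum_congr rfl fun x _ => ?_
        by_cases hx : x ∈ S <;> simp [ind, hx]
      rw [this, mul_sum, ← sum_add_distrib]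
      refine sum_congr rfl fun x _ => ?_
      simp only [hφ']
      ring
    have h7 : ∀ x y, |φ x - φ y| = |φ' x - φ' y| + μ * |ind (x ∈ S) - ind (y ∈ S)| := by
      intro x y
      have hx1 := h1 x
      have hy1 := h1 y
      by_cases hx : x ∈ S <;> by_cases hy : y ∈ S
      · simp only [hφ', ind_pos hx, ind_pos hy]
        simp
      · have hy0 : φ y = 0 := by
          by_contra h3
          exact hy ((hmem y).2 h3)
        simp only [hφ', ind_pos hx, ind_neg hy, hy0, mul_one, mul_zero, sub_zero] at hx1 ⊢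
        rw [abs_of_nonneg (h0 x), abs_of_nonneg hx1]
        simp
      · have hx0 : φ x = 0 := by
          by_contra h3
          exact hx ((hmem x).2 h3)
        simp only [hφ', ind_neg hx, ind_pos hy, hx0, mul_one, mul_zero, sub_zero, zero_sub,
          abs_neg] at hy1 ⊢
        rw [abs_of_nonneg (h0 y), abs_of_nonneg hy1]
        simp
      · simp only [hφ', ind_neg hx, ind_neg hy]
        simp
    have h8 : tv a b τ φ = tv a b τ φ' + μ * cut a b τ S := by
      unfold cut tv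
      simp only [h7, sum_add_distrib, mul_sum]
    rw [h6, h8]
    nlinarith

lemma sum_three (f : ZMod 3 → ℝ) : ∑ t, f t = f 0 + f 1 + f 2 := Fin.sum_univ_three f

lemma three_lower {p q r : ℝ} (h : p + q + r = 0) :
    p ^ 2 + q ^ 2 + r ^ 2 ≤ 3 * ((max 0 (3 * |p| - (|p| + |q| + |r|))) ^ 2 +
      (max 0 (3 * |q| - (|p| + |q| + |r|))) ^ 2 + (max 0 (3 * |r| - (|p| + |q| + |r|))) ^ 2) := by
  have h1 : |p| = |q| + |r| ∨ |q| = |p| + |r| ∨ |r| = |p| + |q| := by
    rcases abs_cases p with ⟨a1, a2⟩ | ⟨a1, a2⟩ <;> rcases abs_cases q with ⟨b1, b2⟩ | ⟨b1, b2⟩ <;>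
      rcases abs_cases r with ⟨c1, c2⟩ | ⟨c1, c2⟩ <;>
      first
        | (left; linarith)
        | (right; left; linarith)
        | (right; right; linarith)
  rw [← sq_abs p, ← sq_abs q, ← sq_abs r]
  have hp := abs_nonneg p
  have hq := abs_nonneg q
  have hr := abs_nonneg r
  generalize |p| = P at *
  generalize |q| = Q at *
  generalize |r| = R at *
  rcases h1 with h1 | h1 | h1
  · rw [show 3 * P - (P + Q + R) = P by linarith, max_eq_right hp]
    nlinarith [sq_nonneg (max 0 (3 * Q - (P + Q + R))), sq_nonneg (max 0 (3 * R - (P + Q + R)))]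
  · rw [show 3 * Q - (P + Q + R) = Q by linarith, max_eq_right hq]
    nlinarith [sq_nonneg (max 0 (3 * P - (P + Q + R))), sq_nonneg (max 0 (3 * R - (P + Q + R)))]
  · rw [show 3 * R - (P + Q + R) = R by linarith, max_eq_right hr]
    nlinarith [sq_nonneg (max 0 (3 * P - (P + Q + R))), sq_nonneg (max 0 (3 * Q - (P + Q + R)))]

lemma amgm {x y : ℝ} (hx : 0 ≤ x) (hy : 0 ≤ y) :
    |x ^ 2 - y ^ 2| ≤ (x ^ 2 + y ^ 2) / 38880 + 19440 * (x - y) ^ 2 := by
  rw [show x ^ 2 - y ^ 2 = (x - y) * (x + y) by ring, abs_mul, abs_of_nonneg (add_nonneg hx hy),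
    ← sq_abs (x - y)]
  nlinarith [sq_nonneg ((x + y) / 38880 - |x - y|), sq_nonneg (x - y), abs_nonneg (x - y)]

/-- The truncated function on the threefold cover. -/
noncomputable def trc (p : V × ZMod 3 → ℝ) (x : V × ZMod 3) : ℝ :=
  max 0 (3 * |p x| - ∑ s, |p (x.1, s)|)

omit [DecidableEq V] in
lemma card_supp_trc (p : V × ZMod 3 → ℝ) :
    #{x | trc p x ^ 2 ≠ 0} ≤ 2 * Fintype.card V := by
  classical
  have h1 : ∀ u : V, ∃ t : ZMod 3, trc p (u, t) = 0 := by
    intro u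
    obtain ⟨t, -, ht⟩ := exists_min_image univ (fun t : ZMod 3 => |p (u, t)|) univ_nonempty
    refine ⟨t, max_eq_left ?_⟩
    simp only
    rw [sum_three]
    linarith [ht 0 (mem_univ _), ht 1 (mem_univ _), ht 2 (mem_univ _)]
  choose z hz using h1
  have h2 : ({x | trc p x ^ 2 ≠ 0} : Finset (V × ZMod 3)) ⊆ (univ.image fun u => (u, z u))ᶜ := by
    intro x hx
    rw [mem_compl, mem_image]
    rintro ⟨u, -, rfl⟩
    have := (mem_filter.1 hx).2
    rw [hz u] at this
    simp at this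
  refine (card_le_card h2).trans ?_
  rw [card_compl, card_image_of_injective _ (fun u v h => (Prod.mk.inj h).1), card_univ,
    Fintype.card_prod, ZMod.card]
  omega

omit [Fintype V] [DecidableEq V] in
lemma trc_sq_le (p : V × ZMod 3 → ℝ) (x : V × ZMod 3) : trc p x ^ 2 ≤ 9 * p x ^ 2 := by
  have h0 : 0 ≤ trc p x := le_max_left _ _
  have h1 : trc p x ≤ 3 * |p x| := by
    refine max_le (by positivity) ?_
    have : 0 ≤ ∑ s, |p (x.1, s)| := sum_nonneg fun _ _ => abs_nonneg _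
    linarith
  rw [← sq_abs (p x)]
  nlinarith

omit [Fintype V] [DecidableEq V] in
lemma trc_edge (p : V × ZMod 3 → ℝ) (u v : V) (c : ZMod 3) {σ : ℝ} (hσ : |σ| = 1) :
    ∑ t, (trc p (u, t) - trc p (v, t + c)) ^ 2 ≤ 9 * ∑ t, (p (u, t) - σ * p (v, t + c)) ^ 2 := by
  set d : ZMod 3 → ℝ := fun t => |p (u, t)| - |p (v, t + c)| with hd
  have h1 : ∀ t, d t ^ 2 ≤ (p (u, t) - σ * p (v, t + c)) ^ 2 := by
    intro t
    rw [sq_le_sq]
    have := abs_abs_sub_abs_le_abs_sub (p (u, t)) (σ * p (v, t + c))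
    rwa [abs_mul, hσ, one_mul] at this
  have h2 : ∑ s, |p (v, s)| = ∑ s, |p (v, s + c)| :=
    (Equiv.sum_comp (Equiv.addRight c) fun s => |p (v, s)|).symm
  have h3 : ∀ t, (trc p (u, t) - trc p (v, t + c)) ^ 2 ≤ (3 * d t - ∑ s, d s) ^ 2 := by
    intro t
    rw [sq_le_sq]
    unfold trc
    refine (abs_max_sub_max_le_max _ _ _ _).trans (max_le (by simp) (le_of_eq ?_))
    congr 1
    simp only [hd, sum_sub_distrib, h2]
    ring
  calc ∑ t, (trc p (u, t) - trc p (v, t + c)) ^ 2 ≤ ∑ t, (3 * d t - ∑ s, d s) ^ 2 :=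
        sum_le_sum fun t _ => h3 t
    _ ≤ 9 * ∑ t, d t ^ 2 := by
        simp only [sum_three]
        nlinarith [sq_nonneg (d 0 + d 1 + d 2)]
    _ ≤ 9 * ∑ t, (p (u, t) - σ * p (v, t + c)) ^ 2 := by
        exact mul_le_mul_of_nonneg_left (sum_le_sum fun t _ => h1 t) (by norm_num)

omit [DecidableEq E] in
lemma scalar {Z : Finset (V × ZMod 3)}
    (hZ : ∀ S : Finset (V × ZMod 3), #S ≤ 2 * Fintype.card V → (#(S \ Z) : ℝ) ≤ 3 * cut a b τ S)
    (p : V × ZMod 3 → ℝ) (hp : ∀ u, ∑ t, p (u, t) = 0) (σ : E → ℝ) (hσ : ∀ e, |σ e| = 1) :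
    ∑ u ∈ (Z.image Prod.fst)ᶜ, ∑ t, p (u, t) ^ 2 ≤
      9 * ∑ e, (9 * (∑ t, p (a e, t) ^ 2 + ∑ t, p (b e, t) ^ 2) / 38880 +
        19440 * (9 * ∑ t, (p (a e, t) - σ e * p (b e, t + τ e)) ^ 2)) := by
  have h1 := coarea hZ _ (fun x => trc p x ^ 2) (fun x => sq_nonneg _) (card_supp_trc p) le_rfl
  have h2 : ∑ u ∈ (Z.image Prod.fst)ᶜ, ∑ t, p (u, t) ^ 2 ≤ 3 * ∑ x ∈ Zᶜ, trc p x ^ 2 := by
    calc ∑ u ∈ (Z.image Prod.fst)ᶜ, ∑ t, p (u, t) ^ 2
        ≤ ∑ u ∈ (Z.image Prod.fst)ᶜ, 3 * ∑ t, trc p (u, t) ^ 2 := by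
          refine sum_le_sum fun u _ => ?_
          have := hp u
          simp only [sum_three, trc] at this ⊢
          exact three_lower this
      _ = 3 * ∑ x ∈ (Z.image Prod.fst)ᶜ ×ˢ (univ : Finset (ZMod 3)), trc p x ^ 2 := by
          rw [← mul_sum, sum_product]
      _ ≤ 3 * ∑ x ∈ Zᶜ, trc p x ^ 2 := by
          refine mul_le_mul_of_nonneg_left (sum_le_sum_of_subset_of_nonneg ?_
            fun _ _ _ => sq_nonneg _) (by norm_num)
          intro x hx
          rw [mem_product, mem_compl] at hx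
          rw [mem_compl]
          exact fun h => hx.1 (mem_image_of_mem _ h)
  have h3 : tv a b τ (fun x => trc p x ^ 2) ≤
      ∑ e, (9 * (∑ t, p (a e, t) ^ 2 + ∑ t, p (b e, t) ^ 2) / 38880 +
        19440 * (9 * ∑ t, (p (a e, t) - σ e * p (b e, t + τ e)) ^ 2)) := by
    unfold tv
    refine sum_le_sum fun e _ => ?_
    have e1 : ∑ t, p (b e, t) ^ 2 = ∑ t, p (b e, t + τ e) ^ 2 :=
      (Equiv.sum_comp (Equiv.addRight (τ e)) fun s => p (b e, s) ^ 2).symm
    have e2 := trc_edge p (a e) (b e) (τ e) (hσ e)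
    calc ∑ t, |trc p (a e, t) ^ 2 - trc p (b e, t + τ e) ^ 2|
        ≤ ∑ t, (9 * (p (a e, t) ^ 2 + p (b e, t + τ e) ^ 2) / 38880 +
            19440 * (trc p (a e, t) - trc p (b e, t + τ e)) ^ 2) := by
          refine sum_le_sum fun t _ => (amgm (le_max_left _ _) (le_max_left _ _)).trans ?_
          have := trc_sq_le p (a e, t)
          have := trc_sq_le p (b e, t + τ e)
          unfold trc at *
          linarith
      _ = 9 * (∑ t, p (a e, t) ^ 2 + ∑ t, p (b e, t + τ e) ^ 2) / 38880 +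
            19440 * ∑ t, (trc p (a e, t) - trc p (b e, t + τ e)) ^ 2 := by
          simp only [sum_three]
          ring
      _ ≤ _ := by
          rw [e1]
          linarith
  linarith

end Pool.Agent.H616Z.Coarse
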