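import Pool.Agent.H616Z.Coarse.Defs
import Pool.Agent.H616Z.Coarse.Core
import Pool.Agent.H616Z.Coarse.Chains

set_option autoImplicit false
set_option linter.unusedSectionVars false
set_option linter.style.haveILetI false

namespace Pool.Agent.H616Z.Coarse

open Finset Filter

universe u

/-- Data for an integer-valued metric. -/
structure PreMet (P : Type) where
  w : P → ℕ
  Rel : ℕ → P → P → Prop
  w_pos : ∀ p, 0 < w p
  refl : ∀ p, Rel 0 p p
  symm : ∀ k p q, Rel k p q → Rel k q p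
  trans : ∀ k l p q r, Rel k p q → Rel l q r → Rel (k + l) p r
  w_eq : ∀ k p q, Rel k p q → w p = w q
  eq_of_zero : ∀ p q, Rel 0 p q → p = q

namespace PreMet

variable {P : Type} (M : PreMet P)

noncomputable def d (p q : P) : ℕ := sInf {k | M.Rel k p q ∨ M.w p + M.w q ≤ k}

lemma d_spec (p q : P) : M.Rel (M.d p q) p q ∨ M.w p + M.w q ≤ M.d p q :=
  Nat.sInf_mem (s := {k | M.Rel k p q ∨ M.w p + M.w q ≤ k}) ⟨_, Or.inr le_rfl⟩

lemma d_le {k : ℕ} {p q : P} (h : M.Rel k p q ∨ M.w p + M.w q ≤ k) : M.d p q ≤ k :=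
  Nat.sInf_le h

lemma d_comm_le (p q : P) : M.d p q ≤ M.d q p := by
  refine M.d_le ?_
  rcases M.d_spec q p with h | h
  · exact Or.inl (M.symm _ _ _ h)
  · exact Or.inr (by omega)

lemma d_triangle (p q r : P) : M.d p r ≤ M.d p q + M.d q r := by
  refine M.d_le ?_
  rcases M.d_spec p q with h | h <;> rcases M.d_spec q r with h' | h'
  · exact Or.inl (M.trans _ _ _ _ _ h h')
  · have := M.w_eq _ _ _ h
    exact Or.inr (by omega)
  · have := M.w_eq _ _ _ h'
    exact Or.inr (by omega)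
  · exact Or.inr (by omega)

lemma eq_of_d {p q : P} (h : M.d p q = 0) : p = q := by
  rcases M.d_spec p q with h1 | h1
  · rw [h] at h1
    exact M.eq_of_zero _ _ h1
  · have := M.w_pos p
    omega

@[reducible] noncomputable def metric : MetricSpace P where
  dist p q := M.d p q
  dist_self p := by
    have := M.d_le (Or.inl (M.refl p))
    simpa using this
  dist_comm p q := by
    rw [le_antisymm (M.d_comm_le p q) (M.d_comm_le q p)]
  dist_triangle p q r := by exact_mod_cast M.d_triangle p q r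
  eq_of_dist_eq_zero := fun {p q} h => M.eq_of_d (by exact_mod_cast h)

end PreMet

lemma ulf_of_map {X Y : Type} [MetricSpace X] [MetricSpace Y] {f : X → Y} (hY : ULF Y)
    (hf : IsCoarseMap f) {s : Y → Finset X} {n : ℕ} (hs : ∀ y, #(s y) ≤ n)
    (hs' : ∀ x, x ∈ s (f x)) : ULF X := by
  classical
  intro r hr
  obtain ⟨R, hR, h1⟩ := hf r hr
  obtain ⟨N, hN⟩ := hY R hR
  refine ⟨N * n, fun x => ?_⟩
  have hfin : (Metric.closedBall (f x) R).Finite := Set.finite_of_encard_le_coe (hN (f x))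
  have h2 : Metric.closedBall x r ⊆ (hfin.toFinset.biUnion s : Finset X) := by
    intro y hy
    refine mem_coe.2 (mem_biUnion.2 ⟨f y, ?_, hs' y⟩)
    rw [Set.Finite.mem_toFinset]
    exact h1 _ _ hy
  refine (Set.encard_le_encard h2).trans ?_
  rw [Set.encard_coe_eq_coe_finsetCard]
  have h3 := card_biUnion_le_card_mul hfin.toFinset s n fun y _ => hs y
  have h4 : hfin.toFinset.card ≤ N := by
    have := hN (f x)
    rw [hfin.encard_eq_coe_toFinset_card] at this
    exact_mod_cast this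
  exact_mod_cast h3.trans (Nat.mul_le_mul_right _ h4)

section Family

variable {V E : ℕ → Type} [∀ n, Fintype (V n)] [∀ n, Fintype (E n)] [∀ n, DecidableEq (V n)]
  [∀ n, DecidableEq (E n)] (a b : ∀ n, E n → V n) (τ : ∀ n, E n → ZMod 3)

variable (V E) in
/-- The source space. -/
abbrev XX : Type := Σ n, V n × (E n → ZMod 2) × ZMod 3

variable (V E) in
/-- The target space. -/
abbrev YY : Type := Σ n, V n × (E n → ZMod 2)

def proj (x : XX V E) : YY V E := ⟨x.1, x.2.1, x.2.2.1⟩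

def preX : PreMet (XX V E) where
  w p := p.1 + 1
  Rel k p q := ∃ n x x', p = ⟨n, x⟩ ∧ q = ⟨n, x'⟩ ∧ Reach (a n) (b n) (τ n) k x x'
  w_pos p := Nat.succ_pos _
  refl p := ⟨p.1, p.2, p.2, rfl, rfl, Reach.refl _⟩
  symm k p q := by
    rintro ⟨n, x, x', rfl, rfl, h⟩
    exact ⟨n, x', x, rfl, rfl, h.symm⟩
  trans k l p q r := by
    rintro ⟨n, x, x', rfl, rfl, h⟩ ⟨n', y, y', he, rfl, h'⟩
    cases he
    exact ⟨n, x, y', rfl, rfl, h.trans h'⟩
  w_eq k p q := by
    rintro ⟨n, x, x', rfl, rfl, -⟩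
    rfl
  eq_of_zero p q := by
    rintro ⟨n, x, x', rfl, rfl, h⟩
    rw [h.eq_of_zero]

variable (V E) in
/-- The Hilbert space. -/
abbrev HH : Type := lp (fun n : ℕ => EuclideanSpace ℝ (E n ⊕ (V n → ZMod 2))) 2

noncomputable def psi (n : ℕ) (y : V n × (E n → ZMod 2)) :
    EuclideanSpace ℝ (E n ⊕ (V n → ZMod 2)) :=
  WithLp.toLp 2 (Sum.elim (fun e => if y.2 e = 0 then 0 else 1)
    (fun κ => if κ = cls (a n) (b n) y then (n + 1 : ℝ) else 0))

noncomputable def emb (y : YY V E) : HH V E := lp.single 2 y.1 (psi a b y.1 y.2)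

lemma psi_sq (n : ℕ) (y y' : V n × (E n → ZMod 2)) :
    ‖psi a b n y - psi a b n y'‖ ^ 2 = #{e | y.2 e ≠ y'.2 e} +
      ∑ κ, ((if κ = cls (a n) (b n) y then (n + 1 : ℝ) else 0) -
        (if κ = cls (a n) (b n) y' then (n + 1 : ℝ) else 0)) ^ 2 := by
  rw [EuclideanSpace.real_norm_sq_eq, Fintype.sum_sum_type]
  congr 1
  rw [← sum_boole]
  refine sum_congr rfl fun e _ => ?_
  have h : ∀ x y : ZMod 2, (x ≠ y ↔ ¬ (x = 0 ↔ y = 0)) := by decide
  simp only [h (y.2 e) (y'.2 e)]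
  by_cases h1 : y.2 e = 0 <;> by_cases h2 : y'.2 e = 0 <;> simp [psi, h1, h2]

lemma psi_cls {n : ℕ} {y y' : V n × (E n → ZMod 2)} (h : cls (a n) (b n) y ≠ cls (a n) (b n) y') :
    (n + 1 : ℝ) ≤ ‖psi a b n y - psi a b n y'‖ := by
  have := PiLp.norm_apply_le (psi a b n y - psi a b n y') (Sum.inr (cls (a n) (b n) y))
  refine le_trans (le_of_eq ?_) this
  simp only [psi, PiLp.sub_apply, Sum.elim_inr, if_true, if_neg h, sub_zero, Real.norm_eq_abs]
  rw [abs_of_nonneg (by positivity)]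

lemma psi_norm (n : ℕ) (y : V n × (E n → ZMod 2)) : (n + 1 : ℝ) ≤ ‖psi a b n y‖ := by
  have := PiLp.norm_apply_le (psi a b n y) (Sum.inr (cls (a n) (b n) y))
  refine le_trans (le_of_eq ?_) this
  simp only [psi, Sum.elim_inr, if_true, Real.norm_eq_abs]
  rw [abs_of_nonneg (by positivity)]

lemma emb_same (n : ℕ) (y y' : V n × (E n → ZMod 2)) :
    ‖emb a b ⟨n, y⟩ - emb a b ⟨n, y'⟩‖ = ‖psi a b n y - psi a b n y'‖ := by
  unfold emb
  rw [← lp.single_sub, lp.norm_single (by norm_num)]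

lemma emb_diff {y y' : YY V E} (h : y.1 ≠ y'.1) : (y.1 + 1 : ℝ) ≤ ‖emb a b y - emb a b y'‖ := by
  have := lp.norm_apply_le_norm (by norm_num) (emb a b y - emb a b y') y.1
  refine le_trans ((psi_norm a b y.1 y.2).trans (le_of_eq ?_)) this
  congr 1
  simp [emb, lp.single_apply, Pi.single_eq_of_ne h]

lemma emb_injective : Function.Injective (emb a b) := by
  rintro ⟨n, y⟩ ⟨n', y'⟩ h
  have h0 : ‖emb a b ⟨n, y⟩ - emb a b ⟨n', y'⟩‖ = 0 := by rw [h, sub_self, norm_zero]
  by_cases hn : n = n'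
  · subst hn
    rw [emb_same] at h0
    have h1 : cls (a n) (b n) y = cls (a n) (b n) y' := by
      by_contra h1
      have := psi_cls a b h1
      rw [h0] at this
      linarith [Nat.cast_nonneg (α := ℝ) n]
    have h2 := psi_sq a b n y y'
    rw [h0, h1] at h2
    simp only [sub_self, ne_eq, OfNat.ofNat_ne_zero, not_false_eq_true, zero_pow, sum_const_zero,
      add_zero] at h2
    have h3 : #{e | ¬ y.2 e = y'.2 e} = 0 := by exact_mod_cast h2.symm
    rw [card_eq_zero, filter_eq_empty_iff] at h3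
    rw [eq_of_cls h1 (funext fun e => not_not.1 (h3 (mem_univ e)))]
  · have := emb_diff a b (y := ⟨n, y⟩) (y' := ⟨n', y'⟩) hn
    rw [h0] at this
    linarith [Nat.cast_nonneg (α := ℝ) n]

@[reducible] noncomputable def metY : MetricSpace (YY V E) :=
  MetricSpace.induced (emb a b) (emb_injective a b) inferInstance

lemma finite_low (K : ℕ) : {y : YY V E | y.1 ≤ K}.Finite := by
  have : {y : YY V E | y.1 ≤ K} ⊆ ⋃ n ∈ Set.Iic K, Set.range (fun y => (⟨n, y⟩ : YY V E)) := by
    rintro ⟨n, y⟩ h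
    exact Set.mem_biUnion (show n ∈ Set.Iic K from h) ⟨y, rfl⟩
  exact ((Set.finite_Iic K).biUnion fun n _ => Set.finite_range _).subset this

lemma ulf_Y (hG : ∀ n, Good (a n) (b n) (τ n) n) : @ULF (YY V E) (metY a b) := by
  letI := metY a b
  intro r hr
  obtain ⟨k, hk⟩ := exists_nat_ge (r ^ 2 + r)
  have hk1 : r ≤ k := by nlinarith
  have hk2 : r ^ 2 ≤ k := by linarith
  refine ⟨#(finite_low (V := V) (E := E) k).toFinset + 200001 ^ k, ?_⟩
  rintro ⟨n, y⟩
  have hd : ∀ y' : YY V E, y' ∈ Metric.closedBall (⟨n, y⟩ : YY V E) r →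
      ‖emb a b y' - emb a b ⟨n, y⟩‖ ≤ r := by
    intro y' h
    rw [← dist_eq_norm]
    exact h
  by_cases hn : n ≤ k
  · have h1 : Metric.closedBall (⟨n, y⟩ : YY V E) r ⊆ {y : YY V E | y.1 ≤ k} := by
      intro y' h
      by_cases h2 : y'.1 = n
      · change y'.1 ≤ k
        omega
      · have h3 := (emb_diff a b (y := y') (y' := ⟨n, y⟩) h2).trans (hd y' h)
        have : (y'.1 : ℝ) ≤ k := by linarith
        exact_mod_cast this
    refine (Set.encard_le_encard h1).trans ?_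
    rw [(finite_low k).encard_eq_coe_toFinset_card]
    exact_mod_cast Nat.le_add_right _ _
  · push Not at hn
    have hn' : (k : ℝ) < n := by exact_mod_cast hn
    have h1 : ∀ y' ∈ Metric.closedBall (⟨n, y⟩ : YY V E) r, ∃ z, y' = ⟨n, z⟩ ∧
        cls (a n) (b n) z = cls (a n) (b n) y ∧ z.2 - y.2 ∈ short (a n) (b n) k y.1 := by
      rintro ⟨n', z⟩ h
      have h2 := hd _ h
      have h3 : n' = n := by
        by_contra h3
        have := emb_diff a b (y := ⟨n, y⟩) (y' := ⟨n', z⟩) (Ne.symm h3)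
        rw [norm_sub_rev] at this
        simp only at this
        linarith
      subst h3
      rw [emb_same] at h2
      have h4 : cls (a n') (b n') z = cls (a n') (b n') y := by
        by_contra h4
        have := psi_cls a b h4
        linarith
      refine ⟨z, rfl, h4, mem_filter.2 ⟨mem_univ _, ?_, z.1, ?_⟩⟩
      · have h5 := psi_sq a b n' z y
        rw [h4] at h5
        simp only [sub_self, ne_eq, OfNat.ofNat_ne_zero, not_false_eq_true, zero_pow,
          sum_const_zero, add_zero] at h5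
        have h6 : ‖psi a b n' z - psi a b n' y‖ ^ 2 ≤ r ^ 2 :=
          pow_le_pow_left₀ (norm_nonneg _) h2 2
        have h7 : (#{e | ¬ z.2 e = y.2 e} : ℝ) ≤ k := by linarith
        have h8 : #{e | ¬ z.2 e = y.2 e} ≤ k := by exact_mod_cast h7
        simpa [sub_eq_zero] using h8
      · rw [bd_sub]
        unfold cls at h4
        linear_combination h4
    haveI : Nonempty (V n × (E n → ZMod 2)) := ⟨y⟩
    choose! z hz1 hz2 hz3 using h1
    have h2 : Set.InjOn (fun y' => (z y').2 - y.2) (Metric.closedBall (⟨n, y⟩ : YY V E) r) := by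
      intro p hp q hq h
      rw [hz1 p hp, hz1 q hq]
      congr 1
      exact eq_of_cls ((hz2 p hp).trans (hz2 q hq).symm) (sub_left_injective h)
    have h3 := Set.encard_le_encard_of_injOn (t := (short (a n) (b n) k y.1 : Finset _))
      (fun p hp => mem_coe.2 (hz3 p hp)) h2
    refine h3.trans ?_
    rw [Set.encard_coe_eq_coe_finsetCard]
    exact_mod_cast (card_short (hG n) k hn.le y.1).trans (Nat.le_add_left _ _)

lemma coarse_proj : @IsCoarseMap (XX V E) (YY V E) (preX a b τ).metric (metY a b) proj := by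
  letI := metY a b
  letI := (preX a b τ).metric
  intro r hr
  obtain ⟨k, hk⟩ := exists_nat_ge r
  obtain ⟨C, hC⟩ := Metric.isBounded_iff.1 (finite_low (V := V) (E := E) k).isBounded
  refine ⟨max C (r + 1), lt_max_of_lt_right (by linarith), fun x x' h => ?_⟩
  have h1 : ((preX a b τ).d x x' : ℝ) ≤ r := h
  rcases (preX a b τ).d_spec x x' with ⟨n, z, z', rfl, rfl, h2⟩ | h2
  · refine le_max_of_le_right ?_
    obtain ⟨h3, h4⟩ := h2.cls_eq
    change dist (emb a b ⟨n, z.1, z.2.1⟩) (emb a b ⟨n, z'.1, z'.2.1⟩) ≤ r + 1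
    rw [dist_eq_norm, emb_same]
    refine (sq_le_sq₀ (norm_nonneg _) (by positivity)).1 ?_
    rw [psi_sq, h3]
    simp only [sub_self, ne_eq, OfNat.ofNat_ne_zero, not_false_eq_true, zero_pow, sum_const_zero,
      add_zero]
    have h5 : (#{e | ¬ z.2.1 e = z'.2.1 e} : ℝ) ≤ (preX a b τ).d ⟨n, z⟩ ⟨n, z'⟩ := by
      exact_mod_cast h4
    nlinarith
  · refine le_max_of_le_left (hC ?_ ?_)
    · have h3 : (preX a b τ).d x x' ≤ k := by exact_mod_cast h1.trans hk
      change x.1 ≤ k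
      change x.1 + 1 + (x'.1 + 1) ≤ _ at h2
      omega
    · have h3 : (preX a b τ).d x x' ≤ k := by exact_mod_cast h1.trans hk
      change x'.1 ≤ k
      change x.1 + 1 + (x'.1 + 1) ≤ _ at h2
      omega

lemma embeds_Y : @CoarselyEmbeds.{0} (YY V E) (metY a b) := by
  letI := metY a b
  refine ⟨HH V E, inferInstance, inferInstance, inferInstance, emb a b, id, id,
    fun t ht => ⟨ht, ht⟩, tendsto_id, fun y y' => ?_⟩
  rw [← dist_eq_norm]
  exact ⟨le_rfl, le_rfl⟩

lemma not_embeds_X (hG : ∀ n, Good (a n) (b n) (τ n) n) :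
    ¬ @CoarselyEmbeds.{u} (XX V E) (preX a b τ).metric := by
  letI := (preX a b τ).metric
  rintro ⟨H, _, _, _, G, ρm, ρp, h0, h1, h2⟩
  have hL : 0 < ρp 1 + 1 := by linarith [(h0 1 zero_le_one).2]
  obtain ⟨T, hT⟩ := eventually_atTop.1 (h1.eventually_ge_atTop (10 ^ 6 * (ρp 1 + 1)))
  obtain ⟨n, hn⟩ := exists_nat_ge T
  refine core (hG n) (fun u δ t => G ⟨n, u, δ, t⟩) hL le_rfl (fun e δ t => ?_) (fun u δ t => ?_)
  · have h3 : (preX a b τ).d ⟨n, a n e, δ, t⟩ ⟨n, b n e, δ + Pi.single e 1, t + τ n e⟩ ≤ 1 :=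
      (preX a b τ).d_le (Or.inl ⟨n, _, _, rfl, rfl, Reach.edge e δ t⟩)
    rcases Nat.le_one_iff_eq_zero_or_eq_one.1 h3 with h4 | h4
    · have := (preX a b τ).eq_of_d h4
      simp only [this, sub_self, norm_zero]
      exact hL.le
    · have h5 := (h2 ⟨n, a n e, δ, t⟩ ⟨n, b n e, δ + Pi.single e 1, t + τ n e⟩).2
      have h6 : dist (⟨n, a n e, δ, t⟩ : XX V E) ⟨n, b n e, δ + Pi.single e 1, t + τ n e⟩ = 1 := by
        change (((preX a b τ).d _ _ : ℕ) : ℝ) = 1
        rw [h4, Nat.cast_one]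
      rw [h6] at h5
      linarith
  · refine le_trans (hT _ ?_) (h2 ⟨n, u, δ, t⟩ ⟨n, u, δ, t + 1⟩).1
    have h3 : n ≤ (preX a b τ).d ⟨n, u, δ, t⟩ ⟨n, u, δ, t + 1⟩ := by
      rcases (preX a b τ).d_spec ⟨n, u, δ, t⟩ ⟨n, u, δ, t + 1⟩ with ⟨m, z, z', e1, e2, h4⟩ | h4
      · cases e1
        cases e2
        by_contra h5
        exact not_reach (hG n) (by omega) u δ t h4
      · change n + 1 + (n + 1) ≤ _ at h4
        omega
    change T ≤ (((preX a b τ).d _ _ : ℕ) : ℝ)
    exact hn.trans (by exact_mod_cast h3)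

end Family

theorem main : ∃ (X Y : Type) (_ : MetricSpace X) (_ : MetricSpace Y) (f : X → Y),
    ULF X ∧ ULF Y ∧ IsCoarseMap f ∧ UnifFiniteToOne f ∧ CoarselyEmbeds.{0} Y ∧
      ¬ CoarselyEmbeds.{u} X := by
  classical
  choose N D a b τ hG using exists_good
  set s : YY (fun n => Fin (N n)) (fun n => D n) → Finset (XX (fun n => Fin (N n)) (fun n => D n)) :=
    fun y => univ.image fun t : ZMod 3 => ⟨y.1, y.2.1, y.2.2, t⟩ with hs
  have hs1 : ∀ y, #(s y) ≤ 3 := fun y => card_image_le.trans (by simp)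
  have hs2 : ∀ x, x ∈ s (proj x) := fun x => mem_image.2 ⟨x.2.2.2, mem_univ _, rfl⟩
  refine ⟨XX (fun n => Fin (N n)) (fun n => D n), YY (fun n => Fin (N n)) (fun n => D n),
    (preX a b τ).metric, metY a b, proj, ?_, ulf_Y a b τ hG, coarse_proj a b τ, ⟨3, fun y => ?_⟩,
    embeds_Y a b, not_embeds_X a b τ hG⟩
  · exact @ulf_of_map _ _ (preX a b τ).metric (metY a b) proj (ulf_Y a b τ hG) (coarse_proj a b τ)
      s 3 hs1 hs2
  · have h1 : proj ⁻¹' {y} ⊆ (s y : Set _) := by
      intro x hx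
      have : proj x = y := hx
      rw [← this]
      exact hs2 x
    refine (Set.encard_le_encard h1).trans ?_
    rw [Set.encard_coe_eq_coe_finsetCard]
    exact_mod_cast hs1 y

end Pool.Agent.H616Z.Coarse
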